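import Pool.Agent.UWK.Defs

/-!
# UWK package Basic: elementary facts about sheets

PROOF of `nx_iter` and `nx_good` together: induction on `j`. If `x j`, `i j` are the components of
`(S.nx c)^[j] (a, i)` and lie over `(nxt nb c)^[j] (S.q a, i)` and `j < k`, then
`nb (S.q (x j)) (i j) = ((nxt nb c)^[j + 1] (S.q a, i)).1 ∉ H` by `RunG`, so
`S.q (x (j + 1)) = nb (S.q (x j)) (i j)` (`q_st`) and the labels agree
(`Function.iterate_succ_apply'`).

PROOF of `nx_label`: `i (j + 1) = i j + (c _).1`, so `i j - i (j + 1) = -(c _).1` and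
`cd (-x) = cd x ≥ m ≥ 3` (`cd_neg`; `(c _).2`).

PROOF of `q_foldl`: induction on `l` from the right (`List.reverseRecOn`, `List.foldl_append`) or
on `l` generalizing `a`: the first step of a good word is good, the rest is a good word from
`S.st a i`.

PROOF of `foldl_reverse`: induction with `st_st`; `goodW_reverse`: the reversed steps pass the same
vertices: for a good word `l` from `a` all vertices `S.q (l'.foldl S.st a)`, `l'` a prefix, are not
in `H` (`q_mem`) and the reverse step from `l' ++ [i]` leads to `nb (nb v i) i = v ∉ H` (`invol`).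

PROOF of `sqG_1`, `sqG_2`, `sqG_3` and the equalities of the squares: for `v = S.q a` with
`SqG nb H v i` all the steps are good, `S.q (S.st a i) = nb v i` etc.; use `hI : Invol nb`,
`hc` (commutation of `nb`), `S.comm` and `S.st_st`. For `sq_3`: the opposite corner
`d = S.st (S.st a i) (i + 1) = S.st (S.st a (i + 1)) i` has `S.st d i = S.st a (i + 1)`,
`S.st d (i + 1) = S.st a i`, `S.st (S.st d i) (i + 1) = a`.
-/

set_option autoImplicit false

open UW1 URW

namespace UWK

namespace Sheet

variable {m : ℕ} {V : Type} {nb : V → Lab m → V} {H : Set V} {A : Type} (S : Sheet nb H A)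
  (c : V → Rot m)

theorem nx_iter {a : A} {i : Lab m} {k : ℕ} (h : RunG nb c H (S.q a, i) k) {j : ℕ} (hj : j ≤ k) :
    (S.q ((S.nx c)^[j] (a, i)).1, ((S.nx c)^[j] (a, i)).2) = (nxt nb c)^[j] (S.q a, i) := by
  induction j with
  | zero => rfl
  | succ j ih =>
    have h1 := ih (by omega)
    have h2 := h (j + 1) hj
    rw [Function.iterate_succ_apply', ← h1] at h2
    rw [Function.iterate_succ_apply', Function.iterate_succ_apply', ← h1]
    have h3 : nb (S.q ((S.nx c)^[j] (a, i)).1) ((S.nx c)^[j] (a, i)).2 ∉ H := h2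
    have h4 := S.q_st _ _ h3
    generalize (S.nx c)^[j] (a, i) = d at h4
    change (S.q (S.st d.1 d.2), d.2 + (c (S.q (S.st d.1 d.2))).1) =
      (nb (S.q d.1) d.2, d.2 + (c (nb (S.q d.1) d.2)).1)
    rw [h4]

theorem nx_good {a : A} {i : Lab m} {k : ℕ} (h : RunG nb c H (S.q a, i) k) {j : ℕ} (hj : j < k) :
    nb (S.q ((S.nx c)^[j] (a, i)).1) ((S.nx c)^[j] (a, i)).2 ∉ H := by
  have h1 := nx_iter S c h hj.le
  have h2 := h (j + 1) hj
  rw [Function.iterate_succ_apply', ← h1] at h2
  exact h2

theorem nx_label (hm : 3 ≤ m) (d : A × Lab m) (j : ℕ) :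
    3 ≤ cd (((S.nx c)^[j] d).2 - ((S.nx c)^[j + 1] d).2) := by
  rw [Function.iterate_succ_apply']
  have h1 : (S.nx c ((S.nx c)^[j] d)).2 = ((S.nx c)^[j] d).2 +
    (c (S.q (S.st ((S.nx c)^[j] d).1 ((S.nx c)^[j] d).2))).1 := rfl
  rw [h1, sub_add_cancel_left, cd_neg]
  exact hm.trans (c _).2

theorem q_foldl {a : A} {l : List (Lab m)} (h : S.GoodW a l) :
    S.q (l.foldl S.st a) = walk nb (S.q a) l := by
  induction l generalizing a with
  | nil => rfl
  | cons i l ih =>
    have h1 : nb (S.q a) i ∉ H := h [] i (by simp)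
    have h2 : S.GoodW (S.st a i) l := by
      intro l' j hl
      refine h (i :: l') j ?_
      rw [List.cons_append]
      exact (List.prefix_cons_inj i).2 hl
    have h3 := ih h2
    rw [List.foldl_cons, h3, S.q_st a i h1]
    rfl

theorem foldl_reverse (a : A) (l : List (Lab m)) :
    l.reverse.foldl S.st (l.foldl S.st a) = a := by
  induction l generalizing a with
  | nil => rfl
  | cons i l ih =>
    have h1 := ih (S.st a i)
    rw [List.reverse_cons, List.foldl_append, List.foldl_cons (l := l), h1, List.foldl_cons,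
      List.foldl_nil, S.st_st]

theorem goodW_reverse (hI : Invol nb) {a : A} {l : List (Lab m)} (h : S.GoodW a l) :
    S.GoodW (l.foldl S.st a) l.reverse := by
  induction l generalizing a with
  | nil =>
    intro l' i hl
    simp at hl
  | cons i l ih =>
    have h1 : nb (S.q a) i ∉ H := h [] i (by simp)
    have h2 : S.GoodW (S.st a i) l := by
      intro l' j hl
      refine h (i :: l') j ?_
      rw [List.cons_append]
      exact (List.prefix_cons_inj i).2 hl
    have h3 := ih h2
    intro l' j hl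
    rw [List.reverse_cons, List.prefix_concat_iff] at hl
    rw [List.foldl_cons]
    rcases hl with hl | hl
    · have h4 := List.append_inj' hl rfl
      obtain ⟨h5, h6⟩ := h4
      rw [h5, foldl_reverse, S.q_st a i h1]
      have h7 : j = i := by simpa using h6
      rw [h7, hI]
      exact S.q_mem a
    · exact h3 l' j hl

section square

variable (hI : Invol nb) (hc : ∀ v i, nb (nb v i) (i + 1) = nb (nb v (i + 1)) i)
include hI hc

theorem sqG_1 {a : A} {i : Lab m} (h : SqG nb H (S.q a) i) :
    SqG nb H (S.q (S.st a i)) i ∧ S.sqa (S.st a i) i = S.sqa a i := by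
  obtain ⟨h1, h2, h3, h4⟩ := h
  have hq := S.q_st a i h2
  refine ⟨⟨S.q_mem _, ?_, ?_, ?_⟩, ?_⟩
  · rw [hq, hI]; exact h1
  · rw [hq]; exact h4
  · rw [hq, hI]; exact h3
  · unfold sqa
    rw [S.st_st]
    ext x
    simp only [Set.mem_insert_iff, Set.mem_singleton_iff]
    tauto

theorem sqG_2 {a : A} {i : Lab m} (h : SqG nb H (S.q a) i) :
    SqG nb H (S.q (S.st a (i + 1))) i ∧ S.sqa (S.st a (i + 1)) i = S.sqa a i := by
  have hcm := S.comm a i h
  obtain ⟨h1, h2, h3, h4⟩ := h
  have hq := S.q_st a (i + 1) h3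
  refine ⟨⟨S.q_mem _, ?_, ?_, ?_⟩, ?_⟩
  · rw [hq, ← hc]; exact h4
  · rw [hq, hI]; exact h1
  · rw [hq, ← hc, hI]; exact h2
  · unfold sqa
    rw [S.st_st, ← hcm, S.st_st]
    ext x
    simp only [Set.mem_insert_iff, Set.mem_singleton_iff]
    tauto

theorem sqG_3 {a : A} {i : Lab m} (h : SqG nb H (S.q a) i) :
    SqG nb H (S.q (S.st (S.st a i) (i + 1))) i ∧
      S.sqa (S.st (S.st a i) (i + 1)) i = S.sqa a i := by
  obtain ⟨h1, h2⟩ := sqG_1 S hI hc h
  obtain ⟨h3, h4⟩ := sqG_2 S hI hc h1
  exact ⟨h3, h4.trans h2⟩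

end square

/-- the finite set `sqf a i` has the elements of `sqa a i` -/
theorem coe_sqf (a : A) (i : Lab m) : (S.sqf a i : Set A) = S.sqa a i := by
  unfold sqf sqa
  simp

end Sheet

end UWK
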