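import Pool.Agent.UWK.Ep

/-!
# UWK package BotA: the bottleneck property from three-coloured points (abstract form)

`G1`, `G2` are graphs on `A`, `G2` is connected, `D` is its distance. Hypotheses: `G1`-neighbours
have `D ≤ 1` (`h1`); `G2`-neighbours `a`, `b` are joined by a `G1`-walk whose vertices are at
`D ≤ 1` from `a` and `b` (`hp`); for each closed `G1`-walk `w` and each labelling `l0` for which
the number of edges of `w` with labels `{0, 1}` is odd there are vertices `u 0, u 1, u 2` of `w`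
with labels `0, 1, 2` and mutual distances `D ≤ 3` (`ht`).

`x 0, …, x k` is a geodesic of `G2`, `γ` a walk of `G1` from `x 0` to `x k`, `i ≤ k`.
CLAIM (`bot1`): some vertex `z` of `γ` has `D (x i) z ≤ 6`.

PROOF. If `i = k` take `z = x k`; if `i + 1 = k` take `z = x k`. Let `i + 2 ≤ k`. For `j < k` take
a `G1`-walk `P j` from `x j` to `x (j + 1)` from `hp` (`D (x j) (x (j + 1)) = 1`, so they are
adjacent): all its vertices are at `D ≤ 1` from `x j` and from `x (j + 1)`. Let `Z1` be the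
concatenation of `P 0, …, P (i - 1), P i` (a walk from `x 0` to `x (i + 1)`), `Z2` that of
`P (i + 1), …, P (k - 1)` (from `x (i + 1)` to `x k`), and `w = (Z1.append Z2).append γ.reverse`, a
closed walk at `x 0`. (Concatenations: prove by induction: for `a ≤ b ≤ k` there is a walk `W` from
`x a` to `x b` such that every vertex `z` of `W` has some `j`, `a ≤ j < b` or `j = a = b`, with
`D z (x j) ≤ 1` and `D z (x (j + 1)) ≤ 1` (for `a < b`).) Labels: `l0 v = 0` if `v ∈ Z1.support`,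
else `1` if `v ∈ Z2.support`, else `2`.
(A) If `D u (x (a + 1)) ≤ 1`, `D u (x a) ≤ 1`, `D u' (x b) ≤ 1`, `D u' (x (b + 1)) ≤ 1`, `a, b < k`
then `b ≤ a + 1 + D u u'`, because
`k = D (x 0) (x k) ≤ a + D (x a) u + D u u' + D u' (x (b + 1)) + (k - b - 1)`
`≤ a + 1 + D u u' + 1 + k - b - 1`.
(B) The sum of `ep l0` over the edges of `Z1.append Z2` is `1`: on this walk `l0 ∈ {0, 1}`, so
`ep l0 s(u, v) = l0 u + l0 v` in `ZMod 2`, and the sum telescopes to `l0 (x 0) + l0 (x k)`
`= 0 + 1`. Indeed `x k ∉ Z1.support`: a vertex `u` of `Z1` has `D u (x a) ≤ 1` for some `a ≤ i`, so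
`k = D (x 0) (x k) ≤ a + 1 ≤ i + 1 < k` if `u = x k`.
(C) If some edge `s(u, u')` of `γ` has `ep l0 ≠ 0`, say `l0 u = 0`, `l0 u' = 1`, then `u ∈ Z1` with
index `a ≤ i`, `u' ∈ Z2` with index `b ≥ i + 1`, `D u u' ≤ 1` (`h1`), so by (A) `b ≤ a + 2`,
`a ≥ i - 1` and `D u (x i) ≤ 1` (`x i` is `x a` or `x (a + 1)`); `z = u` works.
(D) Otherwise the sum of `ep l0` over the edges of `w` is `1 ≠ 0` (`Walk.edges_append`,
`Walk.edges_reverse`). Take `u` from `ht`: `u 0 ∈ Z1`, `u 1 ∈ Z2`, `u 2` is in `w` but not in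
`Z1`, `Z2`, so `u 2 ∈ γ`. With the indices `a ≤ i` of `u 0` and `b ≥ i + 1` of `u 1`:
`b ≤ a + 1 + 3`, so `a ≥ i - 3`; `D (u 0) (x i) ≤ D (u 0) (x (a + 1)) + (i - a - 1) ≤ 1 + 2` if
`a < i`, and `≤ 1` if `a = i`. So `D (x i) (u 2) ≤ 6`, `z = u 2`.

PROOF of `bot`: convert the `G2`-walk `w` to a `G1`-walk `γ` (concatenate the walks of `hp`,
induction on `w`), every vertex of which is at `D ≤ 1` from a vertex of `w`; then `6 + 1 = 7`.
-/

set_option autoImplicit false

namespace UWK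

variable {A : Type} {G1 G2 : SimpleGraph A}

private theorem bot_conc
    (hp : ∀ a b, G2.Adj a b → ∃ w : G1.Walk a b, ∀ z ∈ w.support,
      G2.dist z a ≤ 1 ∧ G2.dist z b ≤ 1)
    (x : ℕ → A) (k : ℕ) (hx : ∀ a b, a ≤ b → b ≤ k → G2.dist (x a) (x b) = b - a)
    (a n : ℕ) (hn : a + (n + 1) ≤ k) :
    ∃ W : G1.Walk (x a) (x (a + (n + 1))), ∀ z ∈ W.support, ∃ j, a ≤ j ∧ j < a + (n + 1) ∧
      G2.dist z (x j) ≤ 1 ∧ G2.dist z (x (j + 1)) ≤ 1 := by
  have hadj : ∀ j, j + 1 ≤ k → G2.Adj (x j) (x (j + 1)) := by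
    intro j hj
    rw [← SimpleGraph.dist_eq_one_iff_adj, hx j (j + 1) (by omega) hj]
    omega
  induction n with
  | zero =>
    obtain ⟨w, hw⟩ := hp _ _ (hadj a (by omega))
    exact ⟨w, fun z hz => ⟨a, le_refl _, by omega, hw z hz⟩⟩
  | succ n ih =>
    obtain ⟨W, hW⟩ := ih (by omega)
    obtain ⟨w, hw⟩ := hp _ _ (hadj (a + (n + 1)) (by omega))
    refine ⟨W.append w, fun z hz => ?_⟩
    rw [SimpleGraph.Walk.mem_support_append_iff] at hz
    rcases hz with hz | hz
    · obtain ⟨j, h1, h2, h3⟩ := hW z hz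
      exact ⟨j, h1, by omega, h3⟩
    · exact ⟨a + (n + 1), by omega, by omega, hw z hz⟩

private theorem bot_tel (l0 : A → Fin 3) {a b : A} (W : G1.Walk a b)
    (h : ∀ z ∈ W.support, l0 z = 0 ∨ l0 z = 1) :
    (W.edges.map (ep l0)).sum =
      (if l0 a = 1 then (1 : ZMod 2) else 0) + (if l0 b = 1 then (1 : ZMod 2) else 0) := by
  induction W with
  | nil =>
    simp only [SimpleGraph.Walk.edges_nil, List.map_nil, List.sum_nil]
    exact (CharTwo.add_self_eq_zero _).symm
  | @cons u v w hadj p ih =>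
    rw [SimpleGraph.Walk.edges_cons, List.map_cons, List.sum_cons, ih ?_]
    · have hu := h u (by simp)
      have hv := h v (by simp)
      have he : ep l0 s(u, v) =
          (if l0 u = 1 then (1 : ZMod 2) else 0) + (if l0 v = 1 then (1 : ZMod 2) else 0) := by
        show (if (l0 u = 0 ∧ l0 v = 1) ∨ (l0 u = 1 ∧ l0 v = 0) then (1 : ZMod 2) else 0) = _
        rcases hu with hu | hu <;> rcases hv with hv | hv <;> rw [hu, hv] <;> decide
      rw [he]
      have h2 : (if l0 v = 1 then (1 : ZMod 2) else 0) +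
          (if l0 v = 1 then (1 : ZMod 2) else 0) = 0 := CharTwo.add_self_eq_zero _
      linear_combination h2
    · intro z hz
      exact h z (by simp [hz])

private theorem bot_conv
    (hp : ∀ a b, G2.Adj a b → ∃ w : G1.Walk a b, ∀ z ∈ w.support,
      G2.dist z a ≤ 1 ∧ G2.dist z b ≤ 1) {a b : A} (w : G2.Walk a b) :
    ∃ γ : G1.Walk a b, ∀ z ∈ γ.support, ∃ y ∈ w.support, G2.dist z y ≤ 1 := by
  induction w with
  | nil =>
    refine ⟨SimpleGraph.Walk.nil, fun z hz => ⟨z, hz, ?_⟩⟩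
    rw [SimpleGraph.dist_self]
    omega
  | @cons u v w hadj p ih =>
    obtain ⟨γ, hγ⟩ := ih
    obtain ⟨P, hP⟩ := hp _ _ hadj
    refine ⟨P.append γ, fun z hz => ?_⟩
    rw [SimpleGraph.Walk.mem_support_append_iff] at hz
    rcases hz with hz | hz
    · exact ⟨u, by simp, (hP z hz).1⟩
    · obtain ⟨y, hy, hyz⟩ := hγ z hz
      exact ⟨y, by simp [hy], hyz⟩

theorem bot1 (hG : G2.Connected) (h1 : ∀ a b, G1.Adj a b → G2.dist a b ≤ 1)
    (hp : ∀ a b, G2.Adj a b → ∃ w : G1.Walk a b, ∀ z ∈ w.support,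
      G2.dist z a ≤ 1 ∧ G2.dist z b ≤ 1)
    (ht : ∀ (a : A) (w : G1.Walk a a) (l0 : A → Fin 3), (w.edges.map (ep l0)).sum ≠ 0 →
      ∃ u : Fin 3 → A, (∀ k, u k ∈ w.support ∧ l0 (u k) = k) ∧ ∀ k l, G2.dist (u k) (u l) ≤ 3)
    (x : ℕ → A) (k : ℕ) (hx : ∀ a b, a ≤ b → b ≤ k → G2.dist (x a) (x b) = b - a)
    (γ : G1.Walk (x 0) (x k)) (i : ℕ) (hi : i ≤ k) : ∃ z ∈ γ.support, G2.dist (x i) z ≤ 6 := by
  classical
  rcases Nat.lt_or_ge (i + 1) k with hik | hik
  swap
  · refine ⟨x k, γ.end_mem_support, ?_⟩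
    rw [hx i k hi le_rfl]
    omega
  obtain ⟨Z1, hZ1⟩ := bot_conc hp x k hx 0 i (by omega)
  obtain ⟨n, hn⟩ : ∃ n, k = (i + 1) + (n + 1) := ⟨k - i - 2, by omega⟩
  obtain ⟨Z2', hZ2'⟩ := bot_conc hp x k hx (i + 1) n (by omega)
  have e0 : x (0 + (i + 1)) = x (i + 1) := by rw [Nat.zero_add]
  have e1 : x (i + 1 + (n + 1)) = x k := by rw [hn]
  obtain ⟨Y1, hY1⟩ : ∃ W : G1.Walk (x 0) (x (i + 1)), ∀ z ∈ W.support, ∃ j, j ≤ i ∧
      G2.dist z (x j) ≤ 1 ∧ G2.dist z (x (j + 1)) ≤ 1 := by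
    refine ⟨Z1.copy rfl e0, fun z hz => ?_⟩
    rw [SimpleGraph.Walk.support_copy] at hz
    obtain ⟨j, _, h2, h3⟩ := hZ1 z hz
    exact ⟨j, by omega, h3⟩
  obtain ⟨Y2, hY2⟩ : ∃ W : G1.Walk (x (i + 1)) (x k), ∀ z ∈ W.support, ∃ j, i + 1 ≤ j ∧ j < k ∧
      G2.dist z (x j) ≤ 1 ∧ G2.dist z (x (j + 1)) ≤ 1 := by
    refine ⟨Z2'.copy rfl e1, fun z hz => ?_⟩
    rw [SimpleGraph.Walk.support_copy] at hz
    obtain ⟨j, h1, h2, h3⟩ := hZ2' z hz
    exact ⟨j, h1, by omega, h3⟩
  have tri : ∀ u v w : A, G2.dist u w ≤ G2.dist u v + G2.dist v w := fun u v w =>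
    hG.dist_triangle
  have key : ∀ u u' : A, u ∈ Y1.support → u' ∈ Y2.support → G2.dist u u' ≤ 3 →
      G2.dist (x i) u ≤ 3 := by
    intro u u' hu hu' hd
    obtain ⟨a, ha, ha1, ha2⟩ := hY1 u hu
    obtain ⟨b, hb, hbk, hb1, hb2⟩ := hY2 u' hu'
    have h3 := hx 0 k (Nat.zero_le _) le_rfl
    have h4 := hx 0 a (Nat.zero_le _) (by omega)
    have h5 := hx (b + 1) k (by omega) le_rfl
    have t1 := tri (x 0) (x a) (x k)
    have t2 := tri (x a) u (x k)
    have t3 := tri u u' (x k)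
    have t4 := tri u' (x (b + 1)) (x k)
    rw [SimpleGraph.dist_comm (u := x a) (v := u)] at t2
    rcases Nat.lt_or_ge a i with hai | hai
    · have t5 := tri (x i) (x (a + 1)) u
      rw [SimpleGraph.dist_comm (u := x i) (v := x (a + 1)),
        SimpleGraph.dist_comm (u := x (a + 1)) (v := u), hx (a + 1) i hai hi] at t5
      omega
    · have hai' : a = i := by omega
      rw [SimpleGraph.dist_comm, ← hai']
      omega
  set l0 : A → Fin 3 := fun v => if v ∈ Y1.support then 0 else if v ∈ Y2.support then 1 else 2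
    with hl0
  have hl00 : ∀ v, l0 v = 0 → v ∈ Y1.support := by
    intro v hv
    by_contra hcon
    rw [hl0] at hv
    dsimp only at hv
    rw [if_neg hcon] at hv
    split_ifs at hv
    · exact absurd hv (by decide)
    · exact absurd hv (by decide)
  have hl01 : ∀ v, l0 v = 1 → v ∈ Y2.support := by
    intro v hv
    by_contra hcon
    rw [hl0] at hv
    dsimp only at hv
    rw [if_neg hcon] at hv
    split_ifs at hv
    · exact absurd hv (by decide)
    · exact absurd hv (by decide)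
  have hl02 : ∀ v, l0 v = 2 → v ∉ Y1.support ∧ v ∉ Y2.support := by
    intro v hv
    rw [hl0] at hv
    dsimp only at hv
    split_ifs at hv with h2 h3
    · exact absurd hv (by decide)
    · exact absurd hv (by decide)
    · exact ⟨h2, h3⟩
  by_cases hC : ∃ e ∈ γ.edges, ep l0 e ≠ 0
  · obtain ⟨e, he, hne⟩ := hC
    induction e using Sym2.ind with
    | _ u v =>
      have hadj : G1.Adj u v := γ.adj_of_mem_edges he
      have hu : u ∈ γ.support := γ.fst_mem_support_of_mem_edges he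
      have hv : v ∈ γ.support := γ.snd_mem_support_of_mem_edges he
      have hd := h1 u v hadj
      have hor : (l0 u = 0 ∧ l0 v = 1) ∨ (l0 u = 1 ∧ l0 v = 0) := by
        by_contra hcon
        apply hne
        show (if (l0 u = 0 ∧ l0 v = 1) ∨ (l0 u = 1 ∧ l0 v = 0) then (1 : ZMod 2) else 0) = 0
        rw [if_neg hcon]
      rcases hor with ⟨hu0, hv1⟩ | ⟨hu1, hv0⟩
      · exact ⟨u, hu, le_trans (key u v (hl00 u hu0) (hl01 v hv1) (by omega)) (by omega)⟩
      · refine ⟨v, hv, le_trans (key v u (hl00 v hv0) (hl01 u hu1) ?_) (by omega)⟩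
        rw [SimpleGraph.dist_comm]
        omega
  · push Not at hC
    have hx0 : l0 (x 0) = 0 := by
      rw [hl0]
      dsimp only
      rw [if_pos Y1.start_mem_support]
    have hxk : l0 (x k) = 1 := by
      rw [hl0]
      dsimp only
      rw [if_neg, if_pos Y2.end_mem_support]
      intro hmem
      obtain ⟨a, ha, ha1, _⟩ := hY1 _ hmem
      rw [SimpleGraph.dist_comm, hx a k (by omega) le_rfl] at ha1
      omega
    have hsumZ : (((Y1.append Y2).edges).map (ep l0)).sum = 1 := by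
      rw [bot_tel l0 (Y1.append Y2) ?_, hx0, hxk]
      · decide
      · intro z hz
        rw [SimpleGraph.Walk.mem_support_append_iff] at hz
        by_cases hz1 : z ∈ Y1.support
        · left
          rw [hl0]
          dsimp only
          rw [if_pos hz1]
        · right
          have hz2 : z ∈ Y2.support := by tauto
          rw [hl0]
          dsimp only
          rw [if_neg hz1, if_pos hz2]
    have hsumγ : ((γ.edges).map (ep l0)).sum = 0 := by
      apply List.sum_eq_zero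
      intro y hy
      rw [List.mem_map] at hy
      obtain ⟨e, he, rfl⟩ := hy
      exact hC e he
    have hsum : ((((Y1.append Y2).append γ.reverse).edges).map (ep l0)).sum ≠ 0 := by
      rw [SimpleGraph.Walk.edges_append, List.map_append, List.sum_append, hsumZ,
        SimpleGraph.Walk.edges_reverse, List.map_reverse, List.sum_reverse, hsumγ]
      decide
    obtain ⟨u, hu1, hu2⟩ := ht _ _ l0 hsum
    have hu0 := hl00 _ (hu1 0).2
    have hu11 := hl01 _ (hu1 1).2
    have hu22 := hl02 _ (hu1 2).2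
    have hmem := (hu1 2).1
    rw [SimpleGraph.Walk.mem_support_append_iff, SimpleGraph.Walk.mem_support_append_iff,
      SimpleGraph.Walk.support_reverse, List.mem_reverse] at hmem
    have hγ : u 2 ∈ γ.support := by
      rcases hmem with (h | h) | h
      · exact absurd h hu22.1
      · exact absurd h hu22.2
      · exact h
    refine ⟨u 2, hγ, ?_⟩
    have h3 := key _ _ hu0 hu11 (hu2 0 1)
    have h4 := tri (x i) (u 0) (u 2)
    have h5 := hu2 0 2
    omega

theorem bot (hG : G2.Connected) (h1 : ∀ a b, G1.Adj a b → G2.dist a b ≤ 1)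
    (hp : ∀ a b, G2.Adj a b → ∃ w : G1.Walk a b, ∀ z ∈ w.support,
      G2.dist z a ≤ 1 ∧ G2.dist z b ≤ 1)
    (ht : ∀ (a : A) (w : G1.Walk a a) (l0 : A → Fin 3), (w.edges.map (ep l0)).sum ≠ 0 →
      ∃ u : Fin 3 → A, (∀ k, u k ∈ w.support ∧ l0 (u k) = k) ∧
        ∀ k l, G2.dist (u k) (u l) ≤ 3) : Bot G2 7 := by
  intro x k hx w i hi
  obtain ⟨γ, hγ⟩ := bot_conv hp w
  obtain ⟨z, hz, hzi⟩ := bot1 hG h1 hp ht x k hx γ i hi
  obtain ⟨y, hy, hyz⟩ := hγ z hz
  refine ⟨y, hy, ?_⟩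
  have h3 : G2.dist (x i) y ≤ G2.dist (x i) z + G2.dist z y := hG.dist_triangle
  omega

end UWK
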