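import Pool.Agent.UWK.Tri
import Pool.Agent.UWK.BotA

/-!
# UWK: the bottleneck property of the block graph of the universal sheet
-/

set_option autoImplicit false

open UW1 URW

namespace UWK

namespace Sheet

variable {m : ℕ} {V : Type} {nb : V → Lab m → V} {H : Set V} {A : Type} (S : Sheet nb H A)
  {c : V → Rot m} {L : ℕ}

theorem bottle [Finite V] (hS : Sys nb c H L) (hG : S.Gen) (hU : S.UP) : Bot (S.G2 c) 7 := by
  refine bot (G1 := S.G1) (S.g2_conn hS hG) (fun a b h => S.dist_of_edge (S.edge_of_G1 c h))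
    (fun a b h => ?_) (fun a w l0 h => S.tri hS hG hU a w l0 h)
  obtain ⟨w, hw⟩ := S.edge_path c h.2
  exact ⟨w, fun z hz => ⟨S.dist_of_edge (hw z hz).1, S.dist_of_edge (hw z hz).2⟩⟩

end Sheet

end UWK
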