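import Pool.Agent.UWK.Basic

/-!
# UWK package Bound: closed walks of the universal sheet bound chains of squares modulo two

PROOF of `bd_sqf`. For a good square with corners `a, x = S.st a i, y = S.st a (i + 1)`,
`d = S.st x (i + 1) = S.st y i` the elements of `(sqf a i).sym2` which are edges of `G1` are
exactly `s(a, x)`, `s(x, d)`, `s(d, y)`, `s(y, a)`, and these four are different: the four corners
lie over the four different vertices `v, nb v i, nb v (i + 1), nb (nb v i) (i + 1)` (by `Sys.uniq`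
for words of length at most one, `Sys.sqn` with `l = []`), and the diagonals are not edges of
`G1`: if `d = S.st a j` (a good step, as `d ≠ a`) then `nb v j = nb (nb v i) (i + 1)` contradicts
`Sys.sqn` with `l = [j]`; if `y = S.st x j` then `nb (nb v i) j = nb v (i + 1)`; the square at
`nb v i` with the label `i` has the opposite corner `nb (nb (nb v i) i) (i + 1) = nb v (i + 1)`, so
this contradicts `Sys.sqn` at `nb v i` with `l = [j]`.

PROOF of `exists_fill`. Let `C = Sym2 A →₀ ZMod 2` and `B` the submodule spanned by `S.bd s`,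
`s ∈ S.SqF`. Let `G = Multiplicative (C ⧸ B)` and `g a b = ofAdd` of the class of
`single s(a, b) 1` if `a ≠ b`, and `1` if `a = b`. The hypotheses of `S.UP` hold (two times a chain
is zero; `bd_sqf`). So there is `f` with `g a (S.st a i) = (f a)⁻¹ * f (S.st a i)`. For a walk `w`
of `G1` from `a` to `b` the class of the sum of its edges is `(f a)⁻¹ * f b` (induction on `w`; a
`G1`-edge is `S.st a i ≠ a`), so for a closed walk it is trivial, i.e. the sum of the edges is in
`B`. An element of the span of the `S.bd s` is `S.bdc F` with `F` supported on `S.SqF`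
(`Finsupp.mem_span_image_iff_linearCombination` or `Submodule.span_induction`).
-/

set_option autoImplicit false

open UW1 URW

namespace UWK

namespace Sheet

variable {m : ℕ} {V : Type} {nb : V → Lab m → V} {H : Set V} {A : Type} (S : Sheet nb H A)
  {c : V → Rot m} {L : ℕ}

private theorem one_ne_zero_lab (hm : 3 ≤ m) : (1 : Lab m) ≠ 0 := by
  have : Fact (1 < 8 * m + 1) := ⟨by omega⟩
  exact one_ne_zero

private theorem nb_ne (hS : Sys nb c H L) (v : V) (i : Lab m) : v ≠ nb v i := by
  intro h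
  have h1 := hS.uniq v [] [i] List.isChain_nil (List.isChain_singleton i) (Nat.zero_le _)
    (by have := hS.two; simp only [List.length_cons, List.length_nil]; omega)
    (by simpa [walk] using h)
  exact absurd h1 (by simp)

private theorem nb_ne' (hS : Sys nb c H L) (v : V) (i : Lab m) : nb v i ≠ nb v (i + 1) := by
  intro h
  have hl := hS.two
  have h1 := hS.uniq v [i] [i + 1] (List.isChain_singleton i) (List.isChain_singleton _)
    (by simp only [List.length_cons, List.length_nil]; omega)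
    (by simp only [List.length_cons, List.length_nil]; omega)
    (by simpa [walk] using h)
  have h2 : i = i + 1 := by simpa using h1
  exact one_ne_zero_lab hS.three (left_eq_add.mp h2)

private theorem sq_facts (hS : Sys nb c H L) {a : A} {i : Lab m} (h : SqG nb H (S.q a) i) :
    a ≠ S.st a i ∧ a ≠ S.st a (i + 1) ∧ a ≠ S.st (S.st a i) (i + 1) ∧
      S.st a i ≠ S.st a (i + 1) ∧ S.st a i ≠ S.st (S.st a i) (i + 1) ∧
      S.st a (i + 1) ≠ S.st (S.st a i) (i + 1) ∧
      (∀ j, S.st (S.st a i) (i + 1) ≠ S.st a j) ∧ (∀ j, S.st a (i + 1) ≠ S.st (S.st a i) j) := by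
  obtain ⟨h0, h1, h2, h3⟩ := h
  have qx : S.q (S.st a i) = nb (S.q a) i := S.q_st a i h1
  have qy : S.q (S.st a (i + 1)) = nb (S.q a) (i + 1) := S.q_st a (i + 1) h2
  have qd : S.q (S.st (S.st a i) (i + 1)) = nb (nb (S.q a) i) (i + 1) := by
    rw [S.q_st (S.st a i) (i + 1) (by rw [qx]; exact h3), qx]
  have d1 : a ≠ S.st a i := fun e => nb_ne hS (S.q a) i (by rw [← qx, ← e])
  have d2 : a ≠ S.st a (i + 1) := fun e => nb_ne hS (S.q a) (i + 1) (by rw [← qy, ← e])
  have d3 : a ≠ S.st (S.st a i) (i + 1) := fun e =>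
    hS.sqn (S.q a) i [] List.isChain_nil (Nat.zero_le _) (by
      rw [← qd, ← e]
      rfl)
  have d4 : S.st a i ≠ S.st a (i + 1) := fun e => nb_ne' hS (S.q a) i (by rw [← qx, ← qy, e])
  have d5 : S.st a i ≠ S.st (S.st a i) (i + 1) := fun e =>
    nb_ne hS (nb (S.q a) i) (i + 1) (by rw [← qd, ← e, qx])
  have d6 : S.st a (i + 1) ≠ S.st (S.st a i) (i + 1) := fun e =>
    nb_ne hS (nb (S.q a) (i + 1)) i (by rw [← hS.comm, ← qd, ← e, qy])
  have hl := hS.two
  refine ⟨d1, d2, d3, d4, d5, d6, ?_, ?_⟩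
  · intro j e
    by_cases hj : nb (S.q a) j ∈ H
    · rw [S.st_bad a j hj] at e
      exact d3 e.symm
    · have h4 := S.q_st a j hj
      rw [← e, qd] at h4
      exact hS.sqn (S.q a) i [j] (List.isChain_singleton j)
        (by simp only [List.length_cons, List.length_nil]; omega) (by simpa [walk] using h4.symm)
  · intro j e
    by_cases hj : nb (S.q (S.st a i)) j ∈ H
    · rw [S.st_bad _ j hj] at e
      exact d4 e.symm
    · have h4 := S.q_st _ j hj
      rw [← e, qy, qx] at h4
      refine hS.sqn (nb (S.q a) i) i [j] (List.isChain_singleton j)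
        (by simp only [List.length_cons, List.length_nil]; omega) ?_
      rw [hS.invol (S.q a) i, h4]
      rfl

theorem bd_sqf (hS : Sys nb c H L) {a : A} {i : Lab m} (h : SqG nb H (S.q a) i) :
    S.bd (S.sqf a i) = Finsupp.single s(a, S.st a i) 1 +
      Finsupp.single s(S.st a i, S.st (S.st a i) (i + 1)) 1 +
      Finsupp.single s(S.st (S.st a i) (i + 1), S.st a (i + 1)) 1 +
      Finsupp.single s(S.st a (i + 1), a) 1 := by
  classical
  obtain ⟨d1, d2, d3, d4, d5, d6, n1, n2⟩ := sq_facts S hS h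
  have hco := S.comm a i h
  have e1 : S.G1.Adj a (S.st a i) := ⟨d1, i, rfl⟩
  have e2 : S.G1.Adj (S.st a i) (S.st (S.st a i) (i + 1)) := ⟨d5, i + 1, rfl⟩
  have e3 : S.G1.Adj (S.st a (i + 1)) (S.st (S.st a i) (i + 1)) := ⟨d6, i, hco⟩
  have e4 : S.G1.Adj a (S.st a (i + 1)) := ⟨d2, i + 1, rfl⟩
  have f1 : ¬ S.G1.Adj a (S.st (S.st a i) (i + 1)) := fun hh => n1 _ hh.2.choose_spec
  have f2 : ¬ S.G1.Adj (S.st a i) (S.st a (i + 1)) := fun hh => n2 _ hh.2.choose_spec
  unfold bd sqf
  generalize S.st (S.st a i) (i + 1) = d at *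
  generalize S.st a i = x at *
  generalize S.st a (i + 1) = y at *
  have key : (({a, x, y, d} : Finset A).sym2.filter fun e => e ∈ S.G1.edgeSet) =
      {s(a, x), s(x, d), s(d, y), s(y, a)} := by
    ext e
    induction e using Sym2.ind with
    | _ p r =>
      rw [Finset.mem_filter, Finset.mk_mem_sym2_iff, SimpleGraph.mem_edgeSet]
      simp only [Finset.mem_insert, Finset.mem_singleton, Sym2.eq_iff]
      constructor
      · rintro ⟨⟨hp | hp | hp | hp, hr | hr | hr | hr⟩, had⟩ <;> subst hp <;>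
          subst hr <;>
          first
          | exact absurd had (SimpleGraph.irrefl _)
          | exact absurd had f1
          | exact absurd had.symm f1
          | exact absurd had f2
          | exact absurd had.symm f2
          | simp
      · rintro ((⟨hp, hr⟩ | ⟨hp, hr⟩) | (⟨hp, hr⟩ | ⟨hp, hr⟩) | (⟨hp, hr⟩ | ⟨hp, hr⟩) |
          (⟨hp, hr⟩ | ⟨hp, hr⟩)) <;> rw [hp, hr] <;>
          first
          | exact ⟨by simp, e1⟩
          | exact ⟨by simp, e1.symm⟩
          | exact ⟨by simp, e2⟩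
          | exact ⟨by simp, e2.symm⟩
          | exact ⟨by simp, e3⟩
          | exact ⟨by simp, e3.symm⟩
          | exact ⟨by simp, e4⟩
          | exact ⟨by simp, e4.symm⟩
  rw [key, Finset.sum_insert, Finset.sum_insert, Finset.sum_insert, Finset.sum_singleton]
  · abel
  · simp only [Finset.mem_singleton, Sym2.eq_iff]
    rintro (⟨h1, h2⟩ | ⟨h1, h2⟩)
    · exact d6 h1.symm
    · exact d3 h1.symm
  · simp only [Finset.mem_insert, Finset.mem_singleton, Sym2.eq_iff]
    rintro ((⟨h1, h2⟩ | ⟨h1, h2⟩) | ⟨h1, h2⟩ | ⟨h1, h2⟩)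
    · exact d5 h1
    · exact d4 h1
    · exact d4 h1
    · exact d1 h1.symm
  · simp only [Finset.mem_insert, Finset.mem_singleton, Sym2.eq_iff]
    rintro ((⟨h1, h2⟩ | ⟨h1, h2⟩) | (⟨h1, h2⟩ | ⟨h1, h2⟩) | ⟨h1, h2⟩ | ⟨h1, h2⟩)
    · exact d1 h1
    · exact d3 h1
    · exact d3 h1
    · exact d2 h1
    · exact d2 h1
    · exact d4 h2

theorem exists_fill (hS : Sys nb c H L) (hU : S.UP) {a : A} (w : S.G1.Walk a a) :
    ∃ F, S.Fills F w := by
  classical
  set B : Submodule (ZMod 2) (Sym2 A →₀ ZMod 2) := Submodule.span (ZMod 2) (S.bd '' S.SqF) with hB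
  have two : ∀ z : (Sym2 A →₀ ZMod 2) ⧸ B, z + z = 0 := by
    intro z
    rw [← two_smul (ZMod 2) z, show (2 : ZMod 2) = 0 from rfl, zero_smul]
  set g : A → A → Multiplicative ((Sym2 A →₀ ZMod 2) ⧸ B) := fun a b =>
    if a = b then 1 else Multiplicative.ofAdd (B.mkQ (Finsupp.single s(a, b) 1)) with hg
  have gne : ∀ a b, a ≠ b → g a b = Multiplicative.ofAdd (B.mkQ (Finsupp.single s(a, b) 1)) :=
    fun a b hab => by rw [hg]; exact if_neg hab
  obtain ⟨f, hf⟩ := hU (Multiplicative ((Sym2 A →₀ ZMod 2) ⧸ B)) g (fun a => by rw [hg]; simp)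
    (fun a i => by
      by_cases hab : a = S.st a i
      · rw [← hab, hg]
        simp
      · rw [gne _ _ hab, gne _ _ (Ne.symm hab), ← ofAdd_add, Sym2.eq_swap (a := S.st a i), two,
          ofAdd_zero])
    (fun a i h => by
      obtain ⟨d1, d2, d3, d4, d5, d6, n1, n2⟩ := sq_facts S hS h
      rw [gne _ _ d1, gne _ _ d5, gne _ _ d2, gne _ _ d6, ← ofAdd_add, ← ofAdd_add]
      congr 1
      have hm : S.bd (S.sqf a i) ∈ B := Submodule.subset_span ⟨_, ⟨a, i, h, rfl⟩, rfl⟩
      rw [S.bd_sqf hS h] at hm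
      have h0 := (Submodule.Quotient.mk_eq_zero B).mpr hm
      rw [← Submodule.mkQ_apply, map_add, map_add, map_add] at h0
      rw [Sym2.eq_swap (a := S.st (S.st a i) (i + 1)), Sym2.eq_swap (a := S.st a (i + 1))
        (b := a)] at h0
      have t1 := two (B.mkQ (Finsupp.single s(S.st a (i + 1), S.st (S.st a i) (i + 1)) 1))
      have t2 := two (B.mkQ (Finsupp.single s(a, S.st a (i + 1)) 1))
      generalize B.mkQ (Finsupp.single s(a, S.st a i) 1) = z1 at *
      generalize B.mkQ (Finsupp.single s(S.st a i, S.st (S.st a i) (i + 1)) 1) = z2 at *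
      generalize B.mkQ (Finsupp.single s(S.st a (i + 1), S.st (S.st a i) (i + 1)) 1) = z3 at *
      generalize B.mkQ (Finsupp.single s(a, S.st a (i + 1)) 1) = z4 at *
      calc z1 + z2 = (z1 + z2 + z3 + z4) + (z4 + z3) - (z3 + z3) - (z4 + z4) := by abel
        _ = z4 + z3 := by rw [h0, t1, t2]; abel)
  have key : ∀ {u v : A} (w : S.G1.Walk u v), Multiplicative.ofAdd
      (B.mkQ ((w.edges.map fun e => Finsupp.single e (1 : ZMod 2)).sum)) = (f u)⁻¹ * f v := by
    intro u v w
    induction w with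
    | nil => simp
    | @cons u v w' hadj p ih =>
      obtain ⟨hne, i, hi⟩ := hadj
      rw [SimpleGraph.Walk.edges_cons, List.map_cons, List.sum_cons, map_add, ofAdd_add, ih,
        ← gne u v hne, hi, hf u i]
      group
  have h1 := key w
  rw [inv_mul_cancel, ofAdd_eq_one, Submodule.mkQ_apply, Submodule.Quotient.mk_eq_zero, hB,
    Finsupp.mem_span_image_iff_linearCombination] at h1
  obtain ⟨F, hF, hF'⟩ := h1
  refine ⟨F, fun s hs => ?_, ?_⟩
  · rw [Finsupp.mem_supported] at hF
    exact hF (Finset.mem_coe.mpr hs)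
  · rw [← hF', Finsupp.linearCombination_apply]
    rfl

end Sheet

end UWK
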