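import Pool.Agent.UWK.Defs

/-!
# UWK package Bridge: finite quotients of the group give systems

PROOF of `nice_red`: induction on the nice word `l`; `UWW.Red` for `a :: l` says that `l` is
reduced and the letter `a` cannot be removed from `l` (`rem c a l = none`): the first letter `b` of
`l` has `cd (a - b) ≥ 3`, so `b ≠ a` and `¬ cm m b a`, and `rem_cons_none` applies.
PROOF of `nice_unique`: `pr l = pr l'` with both nice; both are reduced (`nice_red`), so
`UWW.red_unique` gives that `l` and `l'` differ by swaps of adjacent commuting letters (`Sw`); a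
nice word admits no swap (adjacent letters have distance at least `3`, commuting ones distance
`1`): by induction on `Sw` (with the statement: if `Sw l l'` and `l` is nice then `l = l'`).
PROOF of `nice_ne_sq`: `pr l ≠ sg i * sg (i + 1)` for a nice `l`: the word `[i, i + 1]` is reduced,
so by `red_unique` `Sw [i, i + 1] l`, so `l` has length `2` (`Sw.length`) and its letters are `i`,
`i + 1` (`Sw.mem`), whose distance is `1`: not nice.
PROOF of `walk_nbG`: `walk (nbG ρ) v l = v * ρ (pr l)` by induction.
PROOF of `sys_of_quot`. `three`, `two`: hypotheses. `invol`: `s_sq`. `comm`: `s_comm` (`cd ((i) - (i + 1)) = cd (-1) = 1`).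
`uniq`: `walk v l = walk v l'` gives `ρ (pr (l.reverse ++ l')) = 1` (`pr_reverse`), length at most
`2 L ≤ n`, so `pr (l.reverse ++ l') = 1` by `InjN`, i.e. `pr l = pr l'`, and `nice_unique`.
`sqn`: the same with `l' = [i, i + 1]` and `nice_ne_sq`. `sq2`: the same with the two reduced words
`[i, i + 1]`, `[j, j + 1]`: equal letters up to order give `i = j` (if `i = j + 1` and
`i + 1 = j` then `2 = 0` in `ZMod (8 * m + 1)`, impossible as `8 * m + 1` is odd and `> 1`).
`hit`: given.
-/

set_option autoImplicit false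

open UW1 URW

namespace UWK

variable {m : ℕ}

private theorem br_cd1 (hm : 3 ≤ m) : cd (1 : Lab m) = 1 := by
  have h := cd_intCast (m := m) 1 (by omega)
  rw [Int.cast_one] at h
  exact h

private theorem br_cd2 (hm : 3 ≤ m) : cd (2 : Lab m) = 2 := by
  have h := cd_intCast (m := m) 2 (by omega)
  rw [Int.cast_ofNat] at h
  exact h

private theorem br_sub (hm : 3 ≤ m) (i : Lab m) : cd (i - (i + 1)) = 1 := by
  rw [cd_sub_comm, add_sub_cancel_left, br_cd1 hm]

private theorem br_red2 (hm : 3 ≤ m) (i : Lab m) : UWW.Red (cm m) [i, i + 1] := by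
  refine ⟨⟨trivial, rfl⟩, ?_⟩
  have h1 : i + 1 ≠ i := by
    intro h
    have h2 := br_sub hm i
    rw [h, sub_self, cd_zero] at h2
    exact absurd h2 (by norm_num)
  have h2 : cm m (i + 1) i := by
    have h3 := br_sub hm i
    rw [cd_sub_comm] at h3
    exact h3
  rw [UWW.rem_cons_ne h1 h2]
  rfl

theorem nice_red (hm : 3 ≤ m) {l : List (Lab m)} (h : NiceW l) : UWW.Red (cm m) l := by
  induction l with
  | nil => trivial
  | cons a l ih =>
    cases l with
    | nil => exact ⟨trivial, rfl⟩
    | cons b l =>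
      have h1 : 3 ≤ cd (a - b) ∧ NiceW (b :: l) := List.isChain_cons_cons.1 h
      refine ⟨ih h1.2, UWW.rem_cons_none ?_ ?_ l⟩
      · rintro rfl
        have h2 := h1.1
        rw [sub_self, cd_zero] at h2
        omega
      · intro hc
        have h2 : cd (b - a) = 1 := hc
        rw [cd_sub_comm] at h2
        omega

private theorem br_sw {l l' : List (Lab m)} (hs : UWW.Sw (cm m) l l') (h : NiceW l) : l = l' := by
  induction hs with
  | refl l => rfl
  | swap a b l hab =>
    have h1 : 3 ≤ cd (a - b) ∧ NiceW (b :: l) := List.isChain_cons_cons.1 h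
    have h2 : cd (a - b) = 1 := hab
    omega
  | cons a _ ih => rw [ih (List.IsChain.tail h)]
  | trans _ _ ih1 ih2 =>
    have h1 := ih1 h
    subst h1
    exact ih2 h

theorem nice_unique (hm : 3 ≤ m) {l l' : List (Lab m)} (h : NiceW l) (h' : NiceW l')
    (he : UWW.pr (cm m) l = UWW.pr (cm m) l') : l = l' := by
  exact br_sw (UWW.red_unique (nice_red hm h) (nice_red hm h') he) h

theorem nice_ne_sq (hm : 3 ≤ m) {l : List (Lab m)} (h : NiceW l) (i : Lab m) :
    UWW.pr (cm m) l ≠ UWW.pr (cm m) [i, i + 1] := by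
  intro he
  have h1 := br_sw (UWW.red_unique (nice_red hm h) (br_red2 hm i) he) h
  subst h1
  have h2 : 3 ≤ cd (i - (i + 1)) ∧ NiceW [i + 1] := List.isChain_cons_cons.1 h
  have h3 := br_sub hm i
  omega

theorem walk_nbG {V : Type} [Group V] (ρ : Wm m →* V) (v : V) (l : List (Lab m)) :
    walk (nbG ρ) v l = v * ρ (UWW.pr (cm m) l) := by
  induction l generalizing v with
  | nil =>
    rw [UWW.pr_nil, map_one, mul_one]
    rfl
  | cons a l ih =>
    have h1 : walk (nbG ρ) v (a :: l) = walk (nbG ρ) (v * ρ (sg a)) l := rfl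
    rw [h1, ih, UWW.pr_cons, map_mul, mul_assoc]

private theorem br_inj {V : Type} [Group V] {ρ : Wm m →* V} {n : ℕ} (hinj : InjN ρ n)
    {l l' : List (Lab m)} (hl : l.length + l'.length ≤ n) {v : V}
    (h : walk (nbG ρ) v l = walk (nbG ρ) v l') : UWW.pr (cm m) l = UWW.pr (cm m) l' := by
  rw [walk_nbG, walk_nbG] at h
  have h1 : ρ (UWW.pr (cm m) l) = ρ (UWW.pr (cm m) l') := mul_left_cancel h
  have h2 : UWW.pr (cm m) (l.reverse ++ l') = 1 := by
    refine hinj _ ?_ ?_
    · rw [List.length_append, List.length_reverse]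
      exact hl
    · rw [UWW.pr_append, UWW.pr_reverse, map_mul, map_inv, h1, inv_mul_cancel]
  rw [UWW.pr_append, UWW.pr_reverse, inv_mul_eq_one] at h2
  exact h2

theorem sys_of_quot (hm : 3 ≤ m) {V : Type} [Group V] (ρ : Wm m →* V) (n L : ℕ) (hL2 : 2 ≤ L)
    (hL : 2 * L + 2 ≤ n) (hinj : InjN ρ n) (c : V → Rot m) (H : Set V)
    (hhit : ∀ d : V × Lab m, ∃ j < L, ((nxt (nbG ρ) c)^[j] d).1 ∈ H) :
    Sys (nbG ρ) c H L := by
  have hsq : ∀ (v : V) (i : Lab m), nbG ρ (nbG ρ v i) (i + 1) = walk (nbG ρ) v [i, i + 1] :=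
    fun v i => rfl
  refine ⟨hm, hL2, fun v i => ?_, fun v i => ?_, fun v l l' h h' hl hl' he => ?_,
    fun v i l h hl he => ?_, fun v i j he => ?_, hhit⟩
  · show v * ρ (sg i) * ρ (sg i) = v
    rw [mul_assoc, ← map_mul, UWW.s_sq, map_one, mul_one]
  · show v * ρ (sg i) * ρ (sg (i + 1)) = v * ρ (sg (i + 1)) * ρ (sg i)
    have h1 : cm m i (i + 1) := br_sub hm i
    rw [mul_assoc, mul_assoc, ← map_mul, ← map_mul, UWW.s_comm h1]
  · exact nice_unique hm h h' (br_inj hinj (by omega) he)
  · rw [hsq] at he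
    refine nice_ne_sq hm h i (br_inj hinj ?_ he)
    show l.length + 2 ≤ n
    omega
  · rw [hsq, hsq] at he
    have h1 : UWW.pr (cm m) [i, i + 1] = UWW.pr (cm m) [j, j + 1] := by
      refine br_inj hinj ?_ he
      show 2 + 2 ≤ n
      omega
    have h2 := UWW.red_unique (br_red2 hm i) (br_red2 hm j) h1
    have h3 := (h2.mem i).1 List.mem_cons_self
    have h4 := (h2.mem (i + 1)).1 (List.mem_cons_of_mem _ List.mem_cons_self)
    simp only [List.mem_cons, List.not_mem_nil, or_false] at h3 h4
    rcases h3 with h3 | h3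
    · exact h3
    · rcases h4 with h4 | h4
      · exfalso
        rw [h3, add_assoc] at h4
        have h5 : (1 + 1 : Lab m) = 0 := by
          have h6 := congrArg (fun t => t - j) h4
          simpa using h6
        have h6 := br_cd2 hm
        rw [← one_add_one_eq_two, h5, cd_zero] at h6
        exact absurd h6 (by norm_num)
      · exact add_right_cancel h4

end UWK
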