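import Pool.Agent.UWK.Path

/-!
# UWK package Coh: every cocycle of the block complex of the universal sheet is a coboundary

PROOF. Let `g` be a cocycle on the faces of `S.cx c`. Then `g a a = 1` (face `{a}`:
`g a a * g a a = g a a`), `g a (S.st a i) * g (S.st a i) a = g a a = 1` (if the step is bad then
`S.st a i = a`; otherwise `{a, S.st a i}` is a face), and for a good square `g a x * g x d = g a d
= g a y * g y d` with `x = S.st a i`, `y = S.st a (i + 1)`, `d` the opposite corner (all in the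
block `S.sqa a i`). By `S.UP` there is `f` with `g a (S.st a i) = (f a)⁻¹ * f (S.st a i)`. Let
`Edge a b`: both lie in a block `B`; take the walk `w` from `blk_path`; by induction along `w` (all
vertices in `B`, so all finite subsets of its vertices are faces) `g x b = (f x)⁻¹ * f b`:
`g x b = g x x' * g x' b` with `x' = S.st x i` (cocycle relation on the face `{x, x', b} ⊆ B`).
-/

set_option autoImplicit false

open UW1 URW

namespace UWK

namespace Sheet

variable {m : ℕ} {V : Type} {nb : V → Lab m → V} {H : Set V} {A : Type} (S : Sheet nb H A)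
  (c : V → Rot m)

private theorem blk_mul {G : Type} [Group G] {g : A → A → G}
    (hg : ∀ s ∈ (S.cx c).faces, ∀ a ∈ s, ∀ b ∈ s, ∀ d ∈ s, g a b * g b d = g a d)
    {B : Set A} (hB : S.Blk c B) {x y z : A} (hx : x ∈ B) (hy : y ∈ B) (hz : z ∈ B) :
    g x y * g y z = g x z := by
  classical
  have hs : ({x, y, z} : Finset A) ∈ (S.cx c).faces := by
    refine ⟨⟨x, Finset.mem_insert_self _ _⟩, B, hB, fun t ht => ?_⟩
    rw [Finset.mem_insert, Finset.mem_insert, Finset.mem_singleton] at ht
    rcases ht with rfl | rfl | rfl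
    · exact hx
    · exact hy
    · exact hz
  exact hg _ hs x (by simp) y (by simp) z (by simp)

private theorem walk_mul {G : Type} [Group G] {g : A → A → G}
    (hg : ∀ s ∈ (S.cx c).faces, ∀ a ∈ s, ∀ b ∈ s, ∀ d ∈ s, g a b * g b d = g a d)
    (h1 : ∀ a, g a a = 1) {f : A → G} (hf : ∀ a i, g a (S.st a i) = (f a)⁻¹ * f (S.st a i))
    {B : Set A} (hB : S.Blk c B) {x b : A} (w : S.G1.Walk x b) :
    (∀ z ∈ w.support, z ∈ B) → g x b = (f x)⁻¹ * f b := by
  induction w with
  | nil => exact fun _ => by rw [h1, inv_mul_cancel]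
  | @cons x x' b hadj w ih =>
    intro hs
    have hw : ∀ z ∈ w.support, z ∈ B := fun z hz => hs z (by
      rw [SimpleGraph.Walk.support_cons]
      exact List.mem_cons_of_mem _ hz)
    have hx : x ∈ B := hs x (SimpleGraph.Walk.start_mem_support _)
    have hx' : x' ∈ B := hw x' (SimpleGraph.Walk.start_mem_support _)
    have hb : b ∈ B := hw b (SimpleGraph.Walk.end_mem_support _)
    obtain ⟨-, i, rfl⟩ := hadj
    rw [← blk_mul S c hg hB hx hx' hb, ih hw, hf x i]
    group

theorem coh (hU : S.UP) : UWT.CohTrivial (S.cx c) := by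
  intro G _ g hg
  have h1 : ∀ a, g a a = 1 := by
    intro a
    obtain ⟨s, hs, ha, -⟩ := S.edge_self c a
    exact mul_eq_left.1 (hg s hs a ha a ha a ha)
  have h2 : ∀ a i, g a (S.st a i) * g (S.st a i) a = 1 := by
    intro a i
    by_cases h : a = S.st a i
    · rw [← h, h1, one_mul]
    · obtain ⟨s, hs, ha, hb⟩ := S.edge_of_G1 c (show S.G1.Adj a (S.st a i) from ⟨h, i, rfl⟩)
      rw [hg s hs a ha _ hb a ha, h1]
  have h3 : ∀ a i, SqG nb H (S.q a) i →
      g a (S.st a i) * g (S.st a i) (S.st (S.st a i) (i + 1)) =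
        g a (S.st a (i + 1)) * g (S.st a (i + 1)) (S.st (S.st a i) (i + 1)) := by
    intro a i hi
    have hB : S.Blk c (S.sqa a i) := Or.inl ⟨a, i, hi, rfl⟩
    have m0 : a ∈ S.sqa a i := Or.inl rfl
    have m1 : S.st a i ∈ S.sqa a i := Or.inr (Or.inl rfl)
    have m2 : S.st a (i + 1) ∈ S.sqa a i := Or.inr (Or.inr (Or.inl rfl))
    have m3 : S.st (S.st a i) (i + 1) ∈ S.sqa a i := Or.inr (Or.inr (Or.inr rfl))
    rw [blk_mul S c hg hB m0 m1 m3, blk_mul S c hg hB m0 m2 m3]
  obtain ⟨f, hf⟩ := hU G g h1 h2 h3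
  refine ⟨f, fun a b hab => ?_⟩
  obtain ⟨s, ⟨-, B, hB, hs⟩, ha, hb⟩ := hab
  obtain ⟨w, hw⟩ := S.blk_path c hB (hs a ha) (hs b hb)
  exact walk_mul S c hg h1 hf hB w hw

end Sheet

end UWK
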