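import Pool.Agent.UWK.Bridge

/-!
# UWK package ConnB: the block complex is connected

PROOF. Faces: `{v}` is contained in the run `runv nb c (v, 0) 0 = {v}`; for `v, nb v i ∉ H` the set
`{v, nb v i}` is contained in the run `runv nb c (v, i) 1`. Local finiteness: the vertex type is
finite. Connectivity: let `v ∉ H`; every vertex is `walk nb v l` for a word `l` (`ρ` is surjective
and every element of the group is `pr l`: `UWW.exists_pr`; `walk_nbG`). Claim: if
`v ∉ H`, `walk nb v l ∉ H` then `v` and `walk nb v l` are joined by edges of the complex. Strong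
induction on the length; `l = i :: l'`. If `nb v i ∉ H`: edge to `nb v i`, then the induction
hypothesis. If `h = nb v i ∈ H`: `l' = j :: l''` (the end is not in `H`), `v = nb h i`,
`walk nb v l = walk nb (nb h j) l''`, and `nb h j ∉ H` (sparse). It remains to join `nb h i` and
`nb h j`. For every label `t`, `nb h t`, `nb (nb h t) (t + 1) = nb (nb h (t + 1)) t` and
`nb h (t + 1)` are not in `H`: by `Sparse (nbG ρ) 10 H` a vertex `walk nb h w`, `w` of length at
most `10`, is in `H` only if it is `h`; and `nb h t ≠ h`, `nb (nb h t) (t + 1) ≠ h` because of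
`InjN` and `sg t ≠ 1`, `sg t * sg (t + 1) ≠ 1` (reduced nonempty words: `nice_red` for `[t]`,
`nice_ne_sq` with `l = []`). So `nb h t` and `nb h (t + 1)` are joined, and by induction on
`ZMod (8 * m + 1)` all `nb h t` are joined to each other.
-/

set_option autoImplicit false

open UW1 URW

namespace UWK

private theorem cd_one {m : ℕ} (hm : 3 ≤ m) : cd (-1 : Lab m) = 1 := by
  rw [cd_neg]
  unfold cd
  have h := ZMod.valMinAbs_natCast_of_le_half (n := 8 * m + 1) (a := 1) (by omega)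
  rw [Nat.cast_one] at h
  rw [h]
  rfl

private theorem cm_succ {m : ℕ} (hm : 3 ≤ m) (i : Lab m) : cm m i (i + 1) := by
  unfold cm
  rw [sub_add_cancel_left]
  exact cd_one hm

section

variable {m : ℕ} {V : Type} [Group V] {ρ : Wm m →* V}

private theorem nb_invol (ρ : Wm m →* V) (v : V) (i : Lab m) : nbG ρ (nbG ρ v i) i = v := by
  unfold nbG
  rw [mul_assoc, ← map_mul, UWW.s_sq, map_one, mul_one]

private theorem nb_comm (hm : 3 ≤ m) (ρ : Wm m →* V) (v : V) (i : Lab m) :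
    nbG ρ (nbG ρ v i) (i + 1) = nbG ρ (nbG ρ v (i + 1)) i := by
  unfold nbG
  rw [mul_assoc, mul_assoc, ← map_mul, ← map_mul, UWW.s_comm (cm_succ hm i)]

private theorem nb_ne (hm : 3 ≤ m) {n : ℕ} (hn : 2 ≤ n) (hinj : InjN ρ n) (v : V) (i : Lab m) :
    nbG ρ v i ≠ v := by
  intro h
  have h1 : ρ (UWW.pr (cm m) [i]) = 1 := by
    rw [UWW.pr_cons, UWW.pr_nil, mul_one]
    exact mul_eq_left.1 h
  have h2 := hinj [i] (by simp; omega) h1
  have h3 : UWW.Red (cm m) [i] := nice_red hm (List.isChain_singleton i)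
  have h4 : UWW.Sw (cm m) [i] [] := UWW.red_unique (c := cm m) h3 trivial h2
  have h5 := h4.length
  simp at h5

private theorem nb_nb_ne (hm : 3 ≤ m) {n : ℕ} (hn : 2 ≤ n) (hinj : InjN ρ n) (v : V)
    (i : Lab m) : nbG ρ (nbG ρ v i) (i + 1) ≠ v := by
  intro h
  have h1 : ρ (UWW.pr (cm m) [i, i + 1]) = 1 := by
    rw [UWW.pr_cons, UWW.pr_cons, UWW.pr_nil, mul_one, map_mul]
    unfold nbG at h
    rw [mul_assoc] at h
    exact mul_eq_left.1 h
  have h2 := hinj [i, i + 1] (by simpa using hn) h1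
  exact nice_ne_sq hm (l := []) List.isChain_nil i (by rw [h2]; rfl)

variable {c : V → Rot m} {H : Finset V}

/-- joined by edges of the complex -/
private def Jn (ρ : Wm m →* V) (c : V → Rot m) (H : Finset V) (a b : V) : Prop :=
  ∃ (ha : a ∉ (H : Set V)) (hb : b ∉ (H : Set V)),
    Relation.ReflTransGen (UWT.Edge (blk (nbG ρ) c (H : Set V))) ⟨a, ha⟩ ⟨b, hb⟩

private theorem Jn.trans {a b d : V} (h : Jn ρ c H a b) (h' : Jn ρ c H b d) : Jn ρ c H a d := by
  obtain ⟨ha, hb, h1⟩ := h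
  obtain ⟨_, hd, h2⟩ := h'
  exact ⟨ha, hd, h1.trans h2⟩

private theorem run_blk (a : V) (i : Lab m) (k : ℕ)
    (h : ∀ x ∈ runv (nbG ρ) c (a, i) k, x ∉ (H : Set V)) :
    IsBlk (nbG ρ) c (H : Set V) (runv (nbG ρ) c (a, i) k) := ⟨h, Or.inr ⟨_, _, rfl⟩⟩

private theorem jn_edge {a : V} (i : Lab m) (ha : a ∉ (H : Set V))
    (hb : nbG ρ a i ∉ (H : Set V)) : Jn ρ c H a (nbG ρ a i) := by
  classical
  refine ⟨ha, hb, Relation.ReflTransGen.single ⟨{⟨a, ha⟩, ⟨nbG ρ a i, hb⟩},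
    ⟨⟨⟨a, ha⟩, Finset.mem_insert_self _ _⟩, runv (nbG ρ) c (a, i) 1, run_blk a i 1 ?_, ?_⟩,
    Finset.mem_insert_self _ _, Finset.mem_insert_of_mem (Finset.mem_singleton_self _)⟩⟩
  · rintro x ⟨j, hj, rfl⟩
    rcases Nat.le_one_iff_eq_zero_or_eq_one.1 hj with rfl | rfl
    · exact ha
    · exact hb
  · intro x hx
    rcases Finset.mem_insert.1 hx with rfl | hx
    · exact ⟨0, Nat.zero_le _, rfl⟩
    · rw [Finset.mem_singleton.1 hx]
      exact ⟨1, le_rfl, rfl⟩

private theorem not_mem_one (hm : 3 ≤ m) {n : ℕ} (hn : 2 ≤ n) (hinj : InjN ρ n)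
    (hS : Sparse (nbG ρ) 10 H) {h : V} (hh : h ∈ H) (t : Lab m) :
    nbG ρ h t ∉ (H : Set V) := by
  intro h1
  exact nb_ne hm hn hinj h t (hS h hh [t] (by simp) h1)

private theorem not_mem_two (hm : 3 ≤ m) {n : ℕ} (hn : 2 ≤ n) (hinj : InjN ρ n)
    (hS : Sparse (nbG ρ) 10 H) {h : V} (hh : h ∈ H) (t : Lab m) :
    nbG ρ (nbG ρ h t) (t + 1) ∉ (H : Set V) := by
  intro h1
  exact nb_nb_ne hm hn hinj h t (hS h hh [t, t + 1] (by simp) h1)

private theorem jn_around (hm : 3 ≤ m) {n : ℕ} (hn : 2 ≤ n) (hinj : InjN ρ n)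
    (hS : Sparse (nbG ρ) 10 H) {h : V} (hh : h ∈ H) (i j : Lab m) :
    Jn ρ c H (nbG ρ h i) (nbG ρ h j) := by
  have h1 : ∀ t : Lab m, Jn ρ c H (nbG ρ h t) (nbG ρ h (t + 1)) := by
    intro t
    have e1 := not_mem_one hm hn hinj hS hh t
    have e2 := not_mem_two hm hn hinj hS hh t
    have e3 := not_mem_one hm hn hinj hS hh (t + 1)
    have k1 : Jn ρ c H (nbG ρ h t) (nbG ρ (nbG ρ h t) (t + 1)) := jn_edge (t + 1) e1 e2
    have k2 : nbG ρ (nbG ρ (nbG ρ h t) (t + 1)) t = nbG ρ h (t + 1) := by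
      rw [nb_comm hm, nb_invol]
    have k3 : Jn ρ c H (nbG ρ (nbG ρ h t) (t + 1))
        (nbG ρ (nbG ρ (nbG ρ h t) (t + 1)) t) := jn_edge t e2 (by rw [k2]; exact e3)
    rw [k2] at k3
    exact k1.trans k3
  have h2 : ∀ k : ℕ, Jn ρ c H (nbG ρ h i) (nbG ρ h (i + k)) := by
    intro k
    induction k with
    | zero =>
      have e1 := not_mem_one hm hn hinj hS hh i
      rw [Nat.cast_zero, add_zero]
      exact ⟨e1, e1, Relation.ReflTransGen.refl⟩
    | succ k ih =>
      rw [Nat.cast_succ, ← add_assoc]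
      exact ih.trans (h1 _)
  have h3 := h2 (j - i).val
  rwa [ZMod.natCast_zmod_val, add_sub_cancel] at h3

private theorem jn_walk (hm : 3 ≤ m) {n : ℕ} (hn : 2 ≤ n) (hinj : InjN ρ n)
    (hS : Sparse (nbG ρ) 10 H) : ∀ (N : ℕ) (l : List (Lab m)), l.length ≤ N →
    ∀ v : V, v ∉ (H : Set V) → walk (nbG ρ) v l ∉ (H : Set V) →
      Jn ρ c H v (walk (nbG ρ) v l) := by
  intro N
  induction N with
  | zero =>
    intro l hl v hv _
    rw [List.length_eq_zero_iff.1 (Nat.le_zero.1 hl)]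
    exact ⟨hv, hv, Relation.ReflTransGen.refl⟩
  | succ N ih =>
    intro l hl v hv hw
    cases l with
    | nil => exact ⟨hv, hv, Relation.ReflTransGen.refl⟩
    | cons i l =>
      have hl' : l.length ≤ N := by
        rw [List.length_cons] at hl
        omega
      have e1 : walk (nbG ρ) v (i :: l) = walk (nbG ρ) (nbG ρ v i) l := rfl
      rw [e1] at hw ⊢
      by_cases hi : nbG ρ v i ∈ H
      · cases l with
        | nil => exact absurd hi hw
        | cons j l =>
          have e2 : walk (nbG ρ) (nbG ρ v i) (j :: l) =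
            walk (nbG ρ) (nbG ρ (nbG ρ v i) j) l := rfl
          rw [e2] at hw ⊢
          have k1 := jn_around (c := c) hm hn hinj hS hi i j
          rw [nb_invol] at k1
          refine k1.trans (ih l ?_ _ (not_mem_one hm hn hinj hS hi j) hw)
          rw [List.length_cons] at hl'
          omega
      · exact (jn_edge i hv hi).trans (ih l hl' _ hi hw)

end

theorem conn_blk' {m : ℕ} (hm : 3 ≤ m) {V : Type} [Group V] [Finite V] (ρ : Wm m →* V)
    (hρ : Function.Surjective ρ) (n : ℕ) (hn : 2 ≤ n) (hinj : InjN ρ n) (c : V → Rot m)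
    (H : Finset V) (hS : Sparse (nbG ρ) 10 H) : UWT.Conn (blk (nbG ρ) c (H : Set V)) := by
  refine ⟨fun v => ⟨⟨v, Finset.mem_singleton_self v⟩, runv (nbG ρ) c (v.1, 0) 0,
    run_blk v.1 0 0 ?_, ?_⟩, fun v w => ?_, fun v => Set.toFinite _⟩
  · rintro x ⟨j, hj, rfl⟩
    rw [Nat.le_zero.1 hj]
    exact v.2
  · intro x hx
    rw [Finset.mem_singleton.1 hx]
    exact ⟨0, le_rfl, rfl⟩
  · obtain ⟨g, hg⟩ := hρ (v.1⁻¹ * w.1)
    obtain ⟨l, rfl⟩ := UWW.exists_pr g
    have e1 : walk (nbG ρ) v.1 l = w.1 := by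
      rw [walk_nbG, hg, mul_inv_cancel_left]
    obtain ⟨_, _, h⟩ := jn_walk (c := c) hm hn hinj hS l.length l le_rfl v.1 v.2
      (by rw [e1]; exact w.2)
    have e2 : (⟨walk (nbG ρ) v.1 l, by rw [e1]; exact w.2⟩ : {v : V // v ∉ (H : Set V)}) = w :=
      Subtype.ext e1
    rw [e2] at h
    exact h

end UWK
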