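import Pool.Agent.UWK.RelL

/-!
# UWK package Cov: the projection of a sheet is a simplicial covering of the block complex

PROOF of `pr_blk`: a block of the sheet projects onto a block below, without vertices in `H`: the
square `S.sqa a i` onto `sqv nb (q a) i`, the run `S.runa c (a, i) k` onto `runv nb c (q a, i) k`
(`nx_iter`).

PROOF of `lift_blk`. Square `sqv nb v i` (all corners not in `H`, i.e. `SqG nb H v i`): `S.q a` is
one of the four corners; by invariance of the square under changing the base corner (elementary,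
as in `sqG_1` - `sqG_3` but below) `sqv nb v i = sqv nb (S.q a) i` and `SqG nb H (S.q a) i`; take
`S.sqa a i`. Run `runv nb c e k` (avoiding `H`), `S.q a` = vertex number `j ≤ k`. Go back from `a`:
`b 0 = a`, `b (t + 1) = S.st (b t) (label number j - t - 1)`; then `S.q (b t)` is the vertex
number `j - t` and `(S.nx c) (b (t + 1), label (j - t - 1)) = (b t, label (j - t))`. So for
`a' = b j` the run of `(a', e.2)` (with `S.q a' = e.1`) passes `a` as vertex number `j`. (Best
done by induction on `j` for arbitrary `e`, `k`: if `j = 0` then `S.q a = e.1`; for `j + 1` apply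
the induction hypothesis to the run of `nxt nb c e` of length `k - 1` and then go back one step.)

PROOF of `isCov`.
`inj`: if `x, y` are in a face and `S.pr x = S.pr y` then both are in a block, `S.Rel L x y`
(`rel_of_blk`), `S.Rel L x x` (`rel_self`), so `y = x` by `Rel.rigid`.
`map`: `pr_blk`.
`lift`: `s ⊆ B`, `B` a block below, `S.pr a ∈ s`. Take the block `B'` above from `lift_blk` with
`a ∈ B'`, `S.q '' B' = B`; `s'` = the set of the elements `x ∈ B'` with `S.pr x ∈ s`; it is finite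
(`B'` is finite, or `S.q` is injective on `B'` as above), contains `a` and projects onto `s`.
`uniq`: let `s, s'` be faces above containing `a` with the same image. If `x ∈ s` there is
`x' ∈ s'` with `S.pr x' = S.pr x`, and `S.Rel L a x`, `S.Rel L a x'`, so `x = x'` by `Rel.rigid`.
Hence `s ⊆ s'`, and by symmetry equality.
-/

set_option autoImplicit false

open UW1 URW

namespace UWK

namespace Sheet

variable {m : ℕ} {V : Type} {nb : V → Lab m → V} {H : Set V} {A : Type} (S : Sheet nb H A)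
  {c : V → Rot m} {L : ℕ}

private theorem q_sqa {a : A} {i : Lab m} (h : SqG nb H (S.q a) i) :
    S.q '' S.sqa a i = sqv nb (S.q a) i := by
  have h1 : S.q (S.st a i) = nb (S.q a) i := S.q_st a i h.2.1
  have h2 : S.q (S.st a (i + 1)) = nb (S.q a) (i + 1) := S.q_st a (i + 1) h.2.2.1
  have h3 : S.q (S.st (S.st a i) (i + 1)) = nb (nb (S.q a) i) (i + 1) := by
    rw [S.q_st (S.st a i) (i + 1) (by rw [h1]; exact h.2.2.2), h1]
  unfold sqa sqv
  rw [Set.image_insert_eq, Set.image_insert_eq, Set.image_insert_eq, Set.image_singleton, h1, h2,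
    h3]

private theorem q_runa {a : A} {i : Lab m} {k : ℕ} (h : RunG nb c H (S.q a, i) k) :
    S.q '' S.runa c (a, i) k = runv nb c (S.q a, i) k := by
  have h1 : ∀ j ≤ k, S.q ((S.nx c)^[j] (a, i)).1 = ((nxt nb c)^[j] (S.q a, i)).1 :=
    fun j hj => congrArg Prod.fst (S.nx_iter c h hj)
  ext x
  constructor
  · rintro ⟨y, ⟨j, hj, rfl⟩, rfl⟩
    exact ⟨j, hj, h1 j hj⟩
  · rintro ⟨j, hj, rfl⟩
    exact ⟨_, ⟨j, hj, rfl⟩, h1 j hj⟩

theorem pr_blk {B : Set A} (hB : S.Blk c B) : IsBlk nb c H (S.q '' B) := by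
  refine ⟨?_, ?_⟩
  · rintro x ⟨y, -, rfl⟩
    exact S.q_mem y
  · rcases hB with ⟨a, i, h, rfl⟩ | ⟨a, i, k, h, rfl⟩
    · exact Or.inl ⟨S.q a, i, S.q_sqa h⟩
    · exact Or.inr ⟨(S.q a, i), k, S.q_runa h⟩

private theorem sqv_eq (hI : Invol nb)
    (hc : ∀ v i, nb (nb v i) (i + 1) = nb (nb v (i + 1)) i) {v w : V} {i : Lab m}
    (h : w ∈ sqv nb v i) : sqv nb w i = sqv nb v i := by
  have e1 : nb (nb v i) i = v := hI v i
  have e2 : nb (nb v (i + 1)) (i + 1) = v := hI v (i + 1)
  have e3 : nb (nb (nb v i) (i + 1)) (i + 1) = nb v i := hI (nb v i) (i + 1)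
  have e4 : nb (nb (nb v (i + 1)) i) i = nb v (i + 1) := hI (nb v (i + 1)) i
  have e5 := hc v i
  unfold sqv at h ⊢
  simp only [Set.mem_insert_iff, Set.mem_singleton_iff] at h
  rcases h with rfl | rfl | rfl | rfl
  · rfl
  · ext x
    simp only [Set.mem_insert_iff, Set.mem_singleton_iff, e1]
    tauto
  · ext x
    simp only [Set.mem_insert_iff, Set.mem_singleton_iff, e2]
    rw [← e5, e3]
    tauto
  · ext x
    simp only [Set.mem_insert_iff, Set.mem_singleton_iff]
    rw [e3, e5, e4, e2]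
    tauto

private theorem sqG_iff {v : V} {i : Lab m} :
    SqG nb H v i ↔ ∀ x ∈ sqv nb v i, x ∉ H := by
  unfold SqG sqv
  simp only [Set.mem_insert_iff, Set.mem_singleton_iff, forall_eq_or_imp, forall_eq]

private theorem lift_run (hI : Invol nb) (j : ℕ) : ∀ (e : V × Lab m) (k : ℕ) (a : A),
    RunG nb c H e k → j ≤ k → S.q a = ((nxt nb c)^[j] e).1 →
    ∃ a', S.q a' = e.1 ∧ a = ((S.nx c)^[j] (a', e.2)).1 := by
  induction j with
  | zero =>
    intro e k a _ _ h
    exact ⟨a, h, rfl⟩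
  | succ j ih =>
    intro e k a hr hj h
    obtain ⟨k, rfl⟩ : ∃ k', k = k' + 1 := ⟨k - 1, by omega⟩
    have hr' : RunG nb c H (nxt nb c e) k := by
      intro j' hj'
      rw [← Function.iterate_succ_apply]
      exact hr (j' + 1) (by omega)
    obtain ⟨a1, h1, h2⟩ := ih (nxt nb c e) k a hr' (by omega) (by
      rw [← Function.iterate_succ_apply]
      exact h)
    have h0 : e.1 ∉ H := hr 0 (Nat.zero_le _)
    have h1' : S.q a1 = nb e.1 e.2 := h1
    have h3 : nb (S.q a1) e.2 = e.1 := by rw [h1', hI e.1 e.2]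
    refine ⟨S.st a1 e.2, ?_, ?_⟩
    · rw [S.q_st a1 e.2 (by rw [h3]; exact h0), h3]
    · have h4 : S.nx c (S.st a1 e.2, e.2) = (a1, (nxt nb c e).2) := by
        unfold nx nxt
        simp only [S.st_st, h1']
      rw [Function.iterate_succ_apply, h4]
      exact h2

theorem lift_blk (hS : Sys nb c H L) {B : Set V} (hB : IsBlk nb c H B) {a : A}
    (ha : S.q a ∈ B) : ∃ B', S.Blk c B' ∧ a ∈ B' ∧ S.q '' B' = B := by
  obtain ⟨hH, hB⟩ := hB
  rcases hB with ⟨v, i, rfl⟩ | ⟨e, k, rfl⟩
  · have h1 := sqv_eq hS.invol hS.comm ha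
    have h2 : SqG nb H (S.q a) i := by
      rw [sqG_iff, h1]
      exact hH
    refine ⟨S.sqa a i, Or.inl ⟨a, i, h2, rfl⟩, Set.mem_insert _ _, ?_⟩
    rw [S.q_sqa h2, h1]
  · have hr : RunG nb c H e k := fun j hj => hH _ ⟨j, hj, rfl⟩
    obtain ⟨j, hj, hj'⟩ := ha
    obtain ⟨a', h1, h2⟩ := S.lift_run hS.invol j e k a hr hj hj'
    have he : (S.q a', e.2) = e := by rw [h1]
    have hr' : RunG nb c H (S.q a', e.2) k := by
      rw [he]
      exact hr
    refine ⟨S.runa c (a', e.2) k, Or.inr ⟨a', e.2, k, hr', rfl⟩, ⟨j, hj, h2⟩, ?_⟩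
    rw [S.q_runa hr', he]

private theorem uniq_aux (hS : Sys nb c H L) {a : A} {s s' : Finset A}
    (hs : s ∈ (S.cx c).faces) (hs' : s' ∈ (S.cx c).faces) (ha : a ∈ s) (ha' : a ∈ s')
    (h : ∀ x ∈ s, ∃ x' ∈ s', S.pr x' = S.pr x) : s ⊆ s' := by
  obtain ⟨-, B, hB, hs⟩ := hs
  obtain ⟨-, B', hB', hs'⟩ := hs'
  intro x hx
  obtain ⟨x', hx', he⟩ := h x hx
  have h1 := S.rel_of_blk hS hB (hs a ha) (hs x hx)
  have h2 := S.rel_of_blk hS hB' (hs' a ha') (hs' x' hx')
  have h3 : x = x' := Rel.rigid S hS h1 h2 (congrArg Subtype.val he).symm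
  rw [h3]
  exact hx'

private theorem inj_aux (hS : Sys nb c H L) {B : Set A} (hB : S.Blk c B) :
    Set.InjOn S.pr B := by
  intro x hx y hy h
  exact Rel.rigid S hS (S.rel_self hS x) (S.rel_of_blk hS hB hx hy) (congrArg Subtype.val h)

theorem isCov (hS : Sys nb c H L) : UWT.IsCov (S.cx c) (blk nb c H) S.pr where
  inj := by
    rintro s ⟨-, B, hB, hs⟩
    exact (S.inj_aux hS hB).mono hs
  map := by
    let _ : DecidableEq {v : V // v ∉ H} := fun a b => Classical.propDecidable (a = b)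
    rintro s ⟨hne, B, hB, hs⟩
    refine ⟨hne.image _, S.q '' B, S.pr_blk hB, ?_⟩
    intro x hx
    obtain ⟨y, hy, rfl⟩ := Finset.mem_image.1 hx
    exact ⟨y, hs y hy, rfl⟩
  lift := by
    let _ : DecidableEq {v : V // v ∉ H} := fun a b => Classical.propDecidable (a = b)
    rintro a s ⟨hne, B, hB, hs⟩ ha
    obtain ⟨B', hB', ha', he⟩ := S.lift_blk hS hB (hs _ ha)
    have hfin : {x | x ∈ B' ∧ S.pr x ∈ s}.Finite :=
      Set.Finite.of_injOn (f := S.pr) (t := (s : Set {v : V // v ∉ H})) (fun x hx => hx.2)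
        ((S.inj_aux hS hB').mono fun x hx => hx.1) s.finite_toSet
    have hmem : a ∈ hfin.toFinset := by
      rw [Set.Finite.mem_toFinset]
      exact ⟨ha', ha⟩
    refine ⟨hfin.toFinset, ⟨⟨a, hmem⟩, B', hB', fun x hx => ?_⟩, hmem, ?_⟩
    · rw [Set.Finite.mem_toFinset] at hx
      exact hx.1
    · ext y
      rw [Finset.mem_image]
      constructor
      · rintro ⟨x, hx, rfl⟩
        rw [Set.Finite.mem_toFinset] at hx
        exact hx.2
      · intro hy
        have h1 : (y : V) ∈ S.q '' B' := by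
          rw [he]
          exact hs y hy
        obtain ⟨x, hx, hxy⟩ := h1
        have h2 : S.pr x = y := Subtype.ext hxy
        refine ⟨x, ?_, h2⟩
        rw [Set.Finite.mem_toFinset]
        refine ⟨hx, ?_⟩
        rw [h2]
        exact hy
  uniq := by
    let _ : DecidableEq {v : V // v ∉ H} := fun a b => Classical.propDecidable (a = b)
    intro a s hs s' hs' ha ha' h
    have h1 : ∀ x ∈ s, ∃ x' ∈ s', S.pr x' = S.pr x := fun x hx => by
      have h3 := Finset.mem_image_of_mem S.pr hx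
      rw [h] at h3
      exact Finset.mem_image.1 h3
    have h2 : ∀ x ∈ s', ∃ x' ∈ s, S.pr x' = S.pr x := fun x hx => by
      have h3 := Finset.mem_image_of_mem S.pr hx
      rw [← h] at h3
      exact Finset.mem_image.1 h3
    exact Finset.Subset.antisymm (S.uniq_aux hS hs hs' ha ha' h1)
      (S.uniq_aux hS hs' hs ha' ha h2)

end Sheet

end UWK
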