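import Pool.Agent.UWK.Path
import Pool.Agent.UWK.Cov

/-!
# UWK package ConnS: the block complex of the universal sheet is connected and locally finite

PROOF. `single`: `{a}` is a subset of a face by `edge_self`. `conn`: every vertex is joined to the
base vertex `a₀` of `S.Gen`: for a word `l` by induction from the right
(`List.foldl_append`): `S.st x i` is `x` or a `G1`-neighbour of `x` (`edge_of_G1`); the relation
`Edge` is symmetric. `locfin`: by `isCov` (`uniq`) the map `s ↦ s.image S.pr` is injective on the
faces containing `a`, and its values are finite sets of vertices of a finite type (`V` is finite),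
so `Set.Finite.of_injOn` / `Set.Finite.of_finite_image` with `Set.toFinite`.
`edge_finite`: the finitely many faces containing `a` have finitely many elements.
`g2_conn`: `(S.G2 c).Connected`: `SimpleGraph.connected_iff`, reachability from `conn` (an edge
`Edge a b` is an equality or an adjacency of `G2`), nonempty because of `a₀`.
`near_of_dist2`: if the distance in `G2` is at most `n` then `Near (S.cx c) n`: take a walk of
`G2` of length `dist` (`SimpleGraph.Connected.exists_walk_length_eq_dist`), convert it to
`URW.Rn` (= `UWT.Near`) by induction and use `UWT.near_mono`.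
-/

set_option autoImplicit false

open UW1 URW

namespace UWK

namespace Sheet

variable {m : ℕ} {V : Type} {nb : V → Lab m → V} {H : Set V} {A : Type} (S : Sheet nb H A)
  {c : V → Rot m} {L : ℕ}

private theorem rtg_symm {α : Type} {r : α → α → Prop} (h : ∀ a b, r a b → r b a) {a b : α}
    (hab : Relation.ReflTransGen r a b) : Relation.ReflTransGen r b a := by
  induction hab with
  | refl => exact Relation.ReflTransGen.refl
  | tail _ h2 ih => exact Relation.ReflTransGen.head (h _ _ h2) ih

private theorem edge_st (c : V → Rot m) (a : A) (i : Lab m) :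
    UWT.Edge (S.cx c) a (S.st a i) := by
  by_cases h : a = S.st a i
  · rw [← h]
    exact S.edge_self c a
  · exact S.edge_of_G1 c ⟨h, i, rfl⟩

private theorem conn_word (c : V → Rot m) (a₀ : A) (l : List (Lab m)) :
    Relation.ReflTransGen (UWT.Edge (S.cx c)) a₀ (l.foldl S.st a₀) := by
  induction l using List.reverseRecOn with
  | nil => exact Relation.ReflTransGen.refl
  | append_singleton l i ih =>
    rw [List.foldl_append]
    exact ih.tail (S.edge_st c _ i)

private theorem near_of_walk (c : V → Rot m) {v w : A} (p : (S.G2 c).Walk v w) :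
    UWT.Near (S.cx c) p.length v w := by
  induction p with
  | nil => exact rfl
  | cons h p ih => exact ⟨_, h.2, ih⟩

theorem conn_cx [Finite V] (hS : Sys nb c H L) (hG : S.Gen) : UWT.Conn (S.cx c) := by
  classical
  refine ⟨fun v => ?_, fun v w => ?_, fun v => ?_⟩
  · obtain ⟨s, hs, h1, -⟩ := S.edge_self c v
    exact (S.cx c).down_closed s hs {v} (Finset.singleton_subset_iff.2 h1)
      (Finset.singleton_nonempty v)
  · obtain ⟨a₀, h0⟩ := hG
    obtain ⟨l, rfl⟩ := h0 v
    obtain ⟨l', rfl⟩ := h0 w
    exact (rtg_symm (fun _ _ h => h.symm) (S.conn_word c a₀ l)).trans (S.conn_word c a₀ l')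
  · refine Set.Finite.of_finite_image (f := fun s : Finset A => s.image S.pr) (Set.toFinite _) ?_
    intro s hs s' hs' h
    refine (S.isCov hS).uniq v s hs.1 s' hs'.1 hs.2 hs'.2 ?_
    have h2 : ∀ x, (∃ a ∈ s, S.pr a = x) ↔ ∃ a ∈ s', S.pr a = x := fun x => by
      have h3 := Finset.ext_iff.1 h x
      simp only [Finset.mem_image] at h3
      exact h3
    ext x
    simp only [Finset.mem_image]
    rw [h2 x]

theorem edge_finite [Finite V] (hS : Sys nb c H L) (hG : S.Gen) (v : A) :
    {w | UWT.Edge (S.cx c) v w}.Finite := by
  have h1 := (S.conn_cx hS hG).locfin v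
  refine (h1.biUnion fun s _ => s.finite_toSet).subset ?_
  rintro w ⟨s, hs, hv, hw⟩
  exact Set.mem_biUnion (show s ∈ {s | s ∈ (S.cx c).faces ∧ v ∈ s} from ⟨hs, hv⟩) hw

theorem g2_conn [Finite V] (hS : Sys nb c H L) (hG : S.Gen) : (S.G2 c).Connected := by
  have h1 := S.conn_cx hS hG
  rw [SimpleGraph.connected_iff]
  refine ⟨fun v w => ?_, ?_⟩
  · have h2 := h1.conn v w
    induction h2 with
    | refl => exact SimpleGraph.Reachable.refl v
    | @tail a b _ h4 ih =>
      by_cases hab : a = b
      · rw [← hab]
        exact ih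
      · exact ih.trans (SimpleGraph.Adj.reachable (show (S.G2 c).Adj a b from ⟨hab, h4⟩))
  · obtain ⟨a₀, -⟩ := hG
    exact ⟨a₀⟩

theorem near_of_dist2 [Finite V] (hS : Sys nb c H L) (hG : S.Gen) {v w : A} {n : ℕ}
    (h : (S.G2 c).dist v w ≤ n) : UWT.Near (S.cx c) n v w := by
  have := S.conn_cx hS hG
  obtain ⟨p, hp⟩ := (S.g2_conn hS hG).exists_walk_length_eq_dist v w
  rw [← hp] at h
  exact UWT.near_mono h (S.near_of_walk c p)

end Sheet

end UWK
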