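import Pool.Agent.URW.Sys

/-!
# UWK: coverings of the block complex (section 1), definitions

* `SqG nb H v i`: the square at `v` between the edges `i`, `i + 1` has no corner in `H`.
* `RunG nb c H e k`: the run of the darts `e, …, nxt^[k] e` avoids `H`.
* `Sys nb c H L`: the properties of the labelled graph which are used in section 1.
* `Sheet nb H A`: a covering of the graph of the vertices not in `H`: `q a` is the vertex below
  `a`, `st a i` the neighbour of `a` along the edge `i` (and `a` itself, if that neighbour would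
  lie over `H`).
* `S.cx c`: the block complex of a sheet; `S.pr`: the projection to the vertices not in `H`.
* `S.Rel L a b`: `b` is reached from `a` along a nice word of length less than `L`, or it is the
  opposite corner of a good square at `a`.
-/

set_option autoImplicit false

open UW1 URW

namespace UWK

variable {m : ℕ} {V : Type}

/-- The square at `v` between the edges `i`, `i + 1` has no corner in `H`. -/
def SqG (nb : V → Lab m → V) (H : Set V) (v : V) (i : Lab m) : Prop :=
  v ∉ H ∧ nb v i ∉ H ∧ nb v (i + 1) ∉ H ∧ nb (nb v i) (i + 1) ∉ H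

/-- The run of the darts `e, …, nxt^[k] e` avoids `H`. -/
def RunG (nb : V → Lab m → V) (c : V → Rot m) (H : Set V) (e : V × Lab m) (k : ℕ) : Prop :=
  ∀ j ≤ k, ((nxt nb c)^[j] e).1 ∉ H

/-- The properties of the labelled graph which are used. -/
structure Sys (nb : V → Lab m → V) (c : V → Rot m) (H : Set V) (L : ℕ) : Prop where
  /-- the rotations are at least three -/
  three : 3 ≤ m
  two : 2 ≤ L
  invol : Invol nb
  comm : ∀ v i, nb (nb v i) (i + 1) = nb (nb v (i + 1)) i
  uniq : Uniq nb L
  sqn : ∀ (v : V) (i : Lab m) (l : List (Lab m)), NiceW l → l.length ≤ L →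
    walk nb v l ≠ nb (nb v i) (i + 1)
  sq2 : ∀ (v : V) (i j : Lab m), nb (nb v i) (i + 1) = nb (nb v j) (j + 1) → i = j
  hit : ∀ d : V × Lab m, ∃ j < L, ((nxt nb c)^[j] d).1 ∈ H

/-- A covering of the graph of the vertices not in `H` (and of its good squares). -/
structure Sheet (nb : V → Lab m → V) (H : Set V) (A : Type) where
  /-- the vertex below -/
  q : A → V
  /-- the step along an edge -/
  st : A → Lab m → A
  q_mem : ∀ a, q a ∉ H
  q_st : ∀ a i, nb (q a) i ∉ H → q (st a i) = nb (q a) i
  st_bad : ∀ a i, nb (q a) i ∈ H → st a i = a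
  st_st : ∀ a i, st (st a i) i = a
  comm : ∀ a i, SqG nb H (q a) i → st (st a i) (i + 1) = st (st a (i + 1)) i

namespace Sheet

variable {nb : V → Lab m → V} {H : Set V} {A : Type} (S : Sheet nb H A) (c : V → Rot m)

/-- The next dart. -/
def nx (d : A × Lab m) : A × Lab m := (S.st d.1 d.2, d.2 + (c (S.q (S.st d.1 d.2))).1)

/-- The corners of the square at `a` between the edges `i`, `i + 1`. -/
def sqa (a : A) (i : Lab m) : Set A := {a, S.st a i, S.st a (i + 1), S.st (S.st a i) (i + 1)}

/-- The vertices of a run. -/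
def runa (e : A × Lab m) (k : ℕ) : Set A := {x | ∃ j ≤ k, x = ((S.nx c)^[j] e).1}

/-- Blocks of the sheet. -/
def Blk (B : Set A) : Prop :=
  (∃ a i, SqG nb H (S.q a) i ∧ B = S.sqa a i) ∨
    ∃ a i k, RunG nb c H (S.q a, i) k ∧ B = S.runa c (a, i) k

/-- The block complex of a sheet. -/
def cx : Complex A where
  faces := {s | s.Nonempty ∧ ∃ B, S.Blk c B ∧ ∀ x ∈ s, x ∈ B}
  nonempty_of_mem := fun _ h => h.1
  down_closed := fun _ h _ ht hne => ⟨hne, by
    obtain ⟨B, hB, hs⟩ := h.2
    exact ⟨B, hB, fun x hx => hs x (ht hx)⟩⟩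

/-- The projection. -/
def pr (a : A) : {v : V // v ∉ H} := ⟨S.q a, S.q_mem a⟩

/-- The steps of the word `l` from `a` avoid `H`. -/
def GoodW (a : A) (l : List (Lab m)) : Prop :=
  ∀ l' i, l' ++ [i] <+: l → nb (S.q (l'.foldl S.st a)) i ∉ H

/-- `b` is reached from `a` along a nice word of length less than `L`, or it is the opposite
corner of a good square at `a`. -/
def Rel (L : ℕ) (a b : A) : Prop :=
  (∃ l : List (Lab m), NiceW l ∧ l.length < L ∧ S.GoodW a l ∧ b = l.foldl S.st a) ∨
    ∃ i, SqG nb H (S.q a) i ∧ b = S.st (S.st a i) (i + 1)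

/-- The graph of the good edges. -/
def G1 : SimpleGraph A where
  Adj a b := a ≠ b ∧ ∃ i, b = S.st a i
  symm := ⟨fun a b h => ⟨h.1.symm, by
    obtain ⟨i, hi⟩ := h.2
    exact ⟨i, by rw [hi, S.st_st]⟩⟩⟩
  loopless := ⟨fun a h => h.1 rfl⟩

/-- The block graph: two different vertices are adjacent if they lie in a common face. -/
def G2 : SimpleGraph A where
  Adj a b := a ≠ b ∧ UWT.Edge (S.cx c) a b
  symm := ⟨fun _ _ h => ⟨h.1.symm, h.2.symm⟩⟩
  loopless := ⟨fun _ h => h.1 rfl⟩

/-- Every vertex is reached from a base vertex. -/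
def Gen : Prop := ∃ a₀, ∀ a, ∃ l : List (Lab m), a = l.foldl S.st a₀

/-- Universal property: cocycles on the good edges which are closed on the good squares are
coboundaries. -/
def UP : Prop :=
  ∀ (G : Type) [Group G] (g : A → A → G), (∀ a, g a a = 1) →
    (∀ a i, g a (S.st a i) * g (S.st a i) a = 1) →
    (∀ a i, SqG nb H (S.q a) i →
      g a (S.st a i) * g (S.st a i) (S.st (S.st a i) (i + 1)) =
        g a (S.st a (i + 1)) * g (S.st a (i + 1)) (S.st (S.st a i) (i + 1))) →
    ∃ f : A → G, ∀ a i, g a (S.st a i) = (f a)⁻¹ * f (S.st a i)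

open Classical in
/-- The corners of a square as a finite set. -/
noncomputable def sqf (a : A) (i : Lab m) : Finset A :=
  {a, S.st a i, S.st a (i + 1), S.st (S.st a i) (i + 1)}

/-- The good squares as finite sets. -/
def SqF : Set (Finset A) := {s | ∃ a i, SqG nb H (S.q a) i ∧ s = S.sqf a i}

open Classical in
/-- The boundary of a square modulo two: the sum of its good edges. -/
noncomputable def bd (s : Finset A) : Sym2 A →₀ ZMod 2 :=
  ∑ e ∈ s.sym2 with e ∈ S.G1.edgeSet, Finsupp.single e 1

/-- The boundary of a chain of squares. -/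
noncomputable def bdc (F : Finset A →₀ ZMod 2) : Sym2 A →₀ ZMod 2 := F.sum fun s t => t • S.bd s

/-- `F` is a chain of good squares whose boundary is the closed walk `w`. -/
def Fills (F : Finset A →₀ ZMod 2) {a : A} (w : S.G1.Walk a a) : Prop :=
  (∀ s ∈ F.support, s ∈ S.SqF) ∧
    (w.edges.map fun e => Finsupp.single e (1 : ZMod 2)).sum = S.bdc F

end Sheet

end UWK
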