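import Mathlib

/-!
# UWK: the indicator of edges with the labels 0 and 1, the bottleneck property
-/

set_option autoImplicit false

namespace UWK

/-- `1` if the ends have the labels `0` and `1`, and `0` otherwise. -/
def ep {A : Type} (lam : A → Fin 3) : Sym2 A → ZMod 2 :=
  Sym2.lift ⟨fun a b => if (lam a = 0 ∧ lam b = 1) ∨ (lam a = 1 ∧ lam b = 0) then 1 else 0,
    fun _ _ => if_congr (by tauto) rfl rfl⟩

/-- The bottleneck property with constant `C`: if `x 0, …, x k` is a geodesic and `w` a walk with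
the same ends, then every `x i` is within `C` of a vertex of `w`. -/
def Bot {A : Type} (G : SimpleGraph A) (C : ℕ) : Prop :=
  ∀ (x : ℕ → A) (k : ℕ), (∀ a b, a ≤ b → b ≤ k → G.dist (x a) (x b) = b - a) →
    ∀ (w : G.Walk (x 0) (x k)) (i : ℕ), i ≤ k → ∃ y ∈ w.support, G.dist (x i) y ≤ C

end UWK
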