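import Pool.Agent.UWK.Ep

/-!
# UWK package Sph: components of spheres in a graph with the bottleneck property

`Bot G C`: if `x 0, …, x k` is a geodesic and `w` a walk with the same ends, then every `x i` is
within `C` of a vertex of `w`.

PROOF of `sphere`. Let `k = dist x y`, `h = dist o x = dist o y`, `g 0 = x, …, g k = y` a geodesic
(from a walk of length `dist`: `SimpleGraph.Connected.exists_walk_length_eq_dist`, `getVert`,
and `dist (g a) (g b) = b - a` by the triangle inequality), `i = k / 2`, `p = g i`. (1) `Bot` for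
the walk `w` (all vertices at distance `h` from `o`): `|dist o p - h| ≤ C`. (2) `Bot` for the walk
`x → o → y` along two geodesics: there is `u` on a geodesic from `o` to `x` or from `o` to `y` with
`dist p u ≤ C`. Then `dist o u ≥ dist o p - C ≥ h - 2 C`. If `u` is on the geodesic from `o` to
`x`: `dist u x = h - dist o u ≤ 2 C`, so `i = dist x p ≤ 3 C` and `k ≤ 2 i + 1 ≤ 6 C + 1`. If `u`
is on the geodesic from `o` to `y`: `k - i = dist p y ≤ 3 C` and `k ≤ 2 (k - i) ≤ 6 C`.
-/

set_option autoImplicit false

namespace UWK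

private theorem step_le {A : Type} {G : SimpleGraph A} (hG : G.Connected) {x y : A}
    (p : G.Walk x y) (a n : ℕ) :
    a + n ≤ p.length → G.dist (p.getVert a) (p.getVert (a + n)) ≤ n := by
  induction n with
  | zero => intro _; simp
  | succ n ih =>
    intro h
    have h1 := ih (by omega)
    have h2 : G.Adj (p.getVert (a + n)) (p.getVert (a + n + 1)) := p.adj_getVert_succ (by omega)
    have h3 := hG.dist_triangle (u := p.getVert a) (v := p.getVert (a + n))
      (w := p.getVert (a + n + 1))
    have h4 : G.dist (p.getVert (a + n)) (p.getVert (a + n + 1)) = 1 :=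
      SimpleGraph.dist_eq_one_iff_adj.2 h2
    rw [← add_assoc]
    omega

theorem exists_geod {A : Type} {G : SimpleGraph A} (hG : G.Connected) (x y : A) :
    ∃ g : ℕ → A, g 0 = x ∧ g (G.dist x y) = y ∧
      ∀ a b, a ≤ b → b ≤ G.dist x y → G.dist (g a) (g b) = b - a := by
  obtain ⟨p, hp⟩ := hG.exists_walk_length_eq_dist x y
  refine ⟨p.getVert, p.getVert_zero, by rw [← hp]; exact p.getVert_length, ?_⟩
  intro a b hab hb
  have h1 := step_le hG p 0 a (by omega)
  have h2 := step_le hG p a (b - a) (by omega)
  have h3 := step_le hG p b (p.length - b) (by omega)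
  rw [Nat.zero_add, p.getVert_zero] at h1
  rw [Nat.add_sub_cancel' hab] at h2
  rw [Nat.add_sub_cancel' (by omega), p.getVert_length] at h3
  have h4 := hG.dist_triangle (u := x) (v := p.getVert a) (w := y)
  have h5 := hG.dist_triangle (u := p.getVert a) (v := p.getVert b) (w := y)
  omega

private theorem dist_support {A : Type} {G : SimpleGraph A} {x y u : A}
    (p : G.Walk x y) (hu : u ∈ p.support) : G.dist x u + G.dist u y ≤ p.length := by
  classical
  have h1 := SimpleGraph.dist_le (p.takeUntil u hu)
  have h2 := SimpleGraph.dist_le (p.dropUntil u hu)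
  have h3 := congrArg SimpleGraph.Walk.length (p.take_spec hu)
  rw [SimpleGraph.Walk.length_append] at h3
  omega

theorem sphere {A : Type} {G : SimpleGraph A} (hG : G.Connected) {C : ℕ} (hB : Bot G C)
    (o x y : A) (w : G.Walk x y) (h : ℕ) (hw : ∀ z ∈ w.support, G.dist o z = h) :
    G.dist x y ≤ 6 * C + 1 := by
  obtain ⟨g, h0, hk, hd⟩ := exists_geod hG x y
  have hx : G.dist o x = h := hw x w.start_mem_support
  have hy : G.dist o y = h := hw y w.end_mem_support
  obtain ⟨z, hz, hpz⟩ := hB g (G.dist x y) hd (w.copy h0.symm hk.symm) (G.dist x y / 2) (by omega)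
  rw [SimpleGraph.Walk.support_copy] at hz
  have hoz := hw z hz
  obtain ⟨p, hp⟩ := hG.exists_walk_length_eq_dist x o
  obtain ⟨q, hq⟩ := hG.exists_walk_length_eq_dist o y
  obtain ⟨u, hu, hpu⟩ := hB g (G.dist x y) hd ((p.append q).copy h0.symm hk.symm)
    (G.dist x y / 2) (by omega)
  rw [SimpleGraph.Walk.support_copy, SimpleGraph.Walk.mem_support_append_iff] at hu
  have hxo : G.dist x o = h := by rw [SimpleGraph.dist_comm]; exact hx
  have e1 := hd 0 (G.dist x y / 2) (by omega) (by omega)
  have e2 := hd (G.dist x y / 2) (G.dist x y) (by omega) le_rfl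
  rw [h0] at e1
  rw [hk] at e2
  have t1 := hG.dist_triangle (u := o) (v := g (G.dist x y / 2)) (w := z)
  have t2 := hG.dist_triangle (u := o) (v := u) (w := g (G.dist x y / 2))
  have c1 : G.dist u (g (G.dist x y / 2)) = G.dist (g (G.dist x y / 2)) u :=
    SimpleGraph.dist_comm
  have c2 : G.dist o u = G.dist u o := SimpleGraph.dist_comm
  rcases hu with hu | hu
  · have h1 := dist_support p hu
    have t3 := hG.dist_triangle (u := x) (v := u) (w := g (G.dist x y / 2))
    omega
  · have h1 := dist_support q hu
    have t3 := hG.dist_triangle (u := g (G.dist x y / 2)) (v := u) (w := y)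
    omega

/-- the relation: same level, joined by a walk in the level -/
def Lev {A : Type} (G : SimpleGraph A) (o x y : A) : Prop :=
  ∃ w : G.Walk x y, ∀ z ∈ w.support, G.dist o z = G.dist o x

theorem lev_refl {A : Type} {G : SimpleGraph A} (o x : A) : Lev G o x x :=
  ⟨SimpleGraph.Walk.nil, fun z hz => by
    rw [SimpleGraph.Walk.support_nil, List.mem_singleton] at hz
    rw [hz]⟩

theorem lev_symm {A : Type} {G : SimpleGraph A} {o x y : A} (h : Lev G o x y) :
    Lev G o y x := by
  obtain ⟨w, hw⟩ := h
  refine ⟨w.reverse, fun z hz => ?_⟩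
  rw [SimpleGraph.Walk.support_reverse, List.mem_reverse] at hz
  rw [hw z hz, hw y w.end_mem_support]

theorem lev_trans {A : Type} {G : SimpleGraph A} {o x y z : A} (h : Lev G o x y)
    (h' : Lev G o y z) : Lev G o x z := by
  obtain ⟨w, hw⟩ := h
  obtain ⟨w', hw'⟩ := h'
  refine ⟨w.append w', fun v hv => ?_⟩
  rw [SimpleGraph.Walk.mem_support_append_iff] at hv
  rcases hv with hv | hv
  · exact hw v hv
  · rw [hw' v hv, hw y w.end_mem_support]

end UWK
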