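import Pool.Agent.UWK.Bottle
import Pool.Agent.UWK.Sph

/-!
# UWK package Phi: the map to the graph of sphere components

PROOF. Fix `o : A` (from `S.Gen`). `T` = the quotient of `A` by the equivalence relation
`Lev (S.G2 c) o` (`lev_refl`, `lev_symm`, `lev_trans`), `φ` the quotient map.
Two values on a face `s`: let `k` be the minimum of `dist o` on `s`. Any two vertices of `s` are
equal or adjacent in `G2`, so all levels are `k` or `k + 1`, and two vertices of `s` with the same
level are related by `Lev` (the walk with one edge, or the trivial walk). So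
`s.image φ ⊆ {φ u, φ v}` for suitable `u, v ∈ s` (`u` of level `k`, `v` of level `k + 1` if there
is one) and the cardinality is at most two.
`φ v = φ w` gives `Lev (S.G2 c) o v w` (`Quotient.exact`), hence by `sphere` with `C = 7`
`dist v w ≤ 43 ≤ 98`, and `near_of_dist2`.
-/

set_option autoImplicit false

open UW1 URW

namespace UWK

namespace Sheet

variable {m : ℕ} {V : Type} {nb : V → Lab m → V} {H : Set V} {A : Type} (S : Sheet nb H A)
  {c : V → Rot m} {L : ℕ}

open Classical in
theorem exists_phi [Finite V] (hS : Sys nb c H L) (hG : S.Gen) (hU : S.UP) :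
    ∃ (T : Type) (φ : A → T), (∀ s ∈ (S.cx c).faces, (s.image φ).card ≤ 2) ∧
      ∀ v w, φ v = φ w → UWT.Near (S.cx c) 98 v w := by
  obtain ⟨o, -⟩ := id hG
  have hconn : (S.G2 c).Connected := S.g2_conn hS hG
  let R : Setoid A := ⟨Lev (S.G2 c) o,
    ⟨fun x => lev_refl o x, fun h => lev_symm h, fun h h' => lev_trans h h'⟩⟩
  obtain ⟨T, φ, hφ, hφ'⟩ : ∃ (T : Type) (φ : A → T),
      (∀ x y, Lev (S.G2 c) o x y → φ x = φ y) ∧ ∀ x y, φ x = φ y → Lev (S.G2 c) o x y :=
    ⟨Quotient R, Quotient.mk R, fun x y h => Quotient.sound h, fun x y h => Quotient.exact h⟩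
  refine ⟨T, φ, fun s hs => ?_, fun v w h => ?_⟩
  · have hadj : ∀ x ∈ s, ∀ y ∈ s, x = y ∨ (S.G2 c).Adj x y := fun x hx y hy =>
      (eq_or_ne x y).imp id fun h => ⟨h, s, hs, hx, hy⟩
    have hmk : ∀ x ∈ s, ∀ y ∈ s, (S.G2 c).dist o x = (S.G2 c).dist o y →
        φ x = φ y := by
      intro x hx y hy h
      rcases hadj x hx y hy with rfl | h1
      · rfl
      · refine hφ _ _ ⟨h1.toWalk, fun z hz => ?_⟩
        rw [SimpleGraph.Walk.support_cons, SimpleGraph.Walk.support_nil, List.mem_cons,
          List.mem_singleton] at hz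
        rcases hz with rfl | rfl
        · rfl
        · exact h.symm
    obtain ⟨u, hu, hmin⟩ := s.exists_min_image (fun x => (S.G2 c).dist o x) hs.1
    have hlev : ∀ x ∈ s, (S.G2 c).dist o x = (S.G2 c).dist o u ∨
        (S.G2 c).dist o x = (S.G2 c).dist o u + 1 := by
      intro x hx
      have h1 : (S.G2 c).dist o u ≤ (S.G2 c).dist o x := hmin x hx
      have h2 : (S.G2 c).dist o x ≤ (S.G2 c).dist o u + 1 := by
        rcases hadj u hu x hx with rfl | h
        · omega
        · have h3 := hconn.dist_triangle (u := o) (v := u) (w := x)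
          have h4 : (S.G2 c).dist u x = 1 := SimpleGraph.dist_eq_one_iff_adj.2 h
          omega
      omega
    by_cases hv : ∃ v ∈ s, (S.G2 c).dist o v = (S.G2 c).dist o u + 1
    · obtain ⟨v, hv, hv'⟩ := hv
      refine (Finset.card_le_card (t := {φ u, φ v})
        fun t ht => ?_).trans Finset.card_le_two
      obtain ⟨x, hx, rfl⟩ := Finset.mem_image.1 ht
      rw [Finset.mem_insert, Finset.mem_singleton]
      rcases hlev x hx with h | h
      · exact Or.inl (hmk x hx u hu h)
      · exact Or.inr (hmk x hx v hv (h.trans hv'.symm))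
    · refine (Finset.card_le_card (t := {φ u}) fun t ht => ?_).trans
        (by rw [Finset.card_singleton]; norm_num)
      obtain ⟨x, hx, rfl⟩ := Finset.mem_image.1 ht
      rw [Finset.mem_singleton]
      rcases hlev x hx with h | h
      · exact hmk x hx u hu h
      · exact absurd ⟨x, hx, h⟩ hv
  · obtain ⟨w', hw'⟩ := hφ' _ _ h
    have h1 := sphere hconn (S.bottle hS hG hU) o v w w' _ hw'
    exact S.near_of_dist2 hS hG (h1.trans (by norm_num))

end Sheet

end UWK
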