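import Pool.Agent.UWK.Univ
import Pool.Agent.UWK.Coh
import Pool.Agent.UWK.Phi
import Pool.Agent.UWK.ConnB

/-!
# UWK: the universal cover of the block complex and its map to a graph
-/

set_option autoImplicit false

open UW1 URW

namespace UWK

theorem conn_main {m : ℕ} (hm : 100 ≤ m) {V : Type} [Group V] [Finite V] (ρ : Wm m →* V)
    (hρ : Function.Surjective ρ) (n : ℕ) (hn : 100 ≤ n) (hinj : InjN ρ n) (c : V → Rot m)
    (H : Finset V) (hS : Sparse (nbG ρ) 10 H) : UWT.Conn (blk (nbG ρ) c (H : Set V)) :=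
  conn_blk' (by omega) ρ hρ n (by omega) hinj c H hS

open Classical in
theorem cover_main {m : ℕ} (hm : 100 ≤ m) {V : Type} [Group V] [Finite V] (ρ : Wm m →* V)
    (n L : ℕ) (hn : 100 ≤ n) (hL : 10 * L ≤ n) (hinj : InjN ρ n)
    (c : V → Rot m) (H : Finset V) (hS : Sparse (nbG ρ) 10 H)
    (hhit : ∀ d : V × Lab m, ∃ j < L, ((nxt (nbG ρ) c)^[j] d).1 ∈ H) :
    ∃ (V' T : Type) (K' : Complex V') (p : V' → {v : V // v ∉ (H : Set V)}) (φ : V' → T),
      Nonempty V' ∧ UWT.Conn K' ∧ (∀ v, {w | UWT.Edge K' v w}.Finite) ∧ UWT.CohTrivial K' ∧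
      UWT.IsCov K' (blk (nbG ρ) c (H : Set V)) p ∧ (∀ s ∈ K'.faces, (s.image φ).card ≤ 2) ∧
      ∀ v w, φ v = φ w → UWT.Near K' 98 v w := by
  have hsys : Sys (nbG ρ) c (H : Set V) (max L 2) := by
    refine sys_of_quot (by omega) ρ n (max L 2) (le_max_right _ _) (by omega) hinj c H
      fun d => ?_
    obtain ⟨j, hj, h⟩ := hhit d
    exact ⟨j, lt_of_lt_of_le hj (le_max_left _ _), h⟩
  obtain ⟨b, hb⟩ : ∃ b, b ∉ (H : Set V) := by
    obtain ⟨j, _, h⟩ := hhit (1, 0)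
    refine ⟨nbG ρ ((nxt (nbG ρ) c)^[j] (1, 0)).1 0, fun hc => ?_⟩
    have h1 := hS _ h [0] (by simp) hc
    have h2 := hsys.uniq ((nxt (nbG ρ) c)^[j] (1, 0)).1 [0] [] (List.isChain_singleton _)
      List.isChain_nil (by simp) (by simp) h1
    exact List.cons_ne_nil _ _ h2
  obtain ⟨A, S, hG, hU⟩ := exists_sheet (nbG ρ) (H : Set V) b hb hsys.invol hsys.comm
  obtain ⟨T, φ, h1, h2⟩ := S.exists_phi hsys hG hU
  obtain ⟨a₀, _⟩ := id hG
  exact ⟨A, T, S.cx c, S.pr, φ, ⟨a₀⟩, S.conn_cx hsys hG, S.edge_finite hsys hG, S.coh c hU,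
    S.isCov hsys, h1, h2⟩

end UWK
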