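import Pool.Agent.UWK.Basic

/-!
# UWK package Path: paths inside blocks

PROOF of `blk_path`. Let `x, y` be in the block `B`. Run: `x`, `y` are the vertices number `j` and
`j'`; the vertices between them (in increasing or decreasing order) form a walk of `G1`: consecutive
vertices are `x (t + 1) = S.st (x t) (i t)` (`Function.iterate_succ_apply'`), equal or adjacent
in `G1` (if they are equal use the trivial step: `Walk.copy`/`cases` on equality; in fact they are
different because the labels are good and `nb v i ≠ v`, but this is not needed). So by induction on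
`|j - j'|` there is a walk with support in `B`. Square: any two corners are equal, adjacent
(`S.st a i`, `S.st a (i + 1)` are neighbours of `a`; `S.st (S.st a i) (i + 1)` is a neighbour of
`S.st a i`, and, by `S.comm`, of `S.st a (i + 1)`) or joined through a third corner.
It is convenient to prove first: the relation (there is a `G1`-walk from `x` to `y` with support in
`B`) is symmetric (`Walk.reverse`), transitive (`Walk.append`, `Walk.support_append`,
`Walk.mem_support_append_iff`) and holds for `x ∈ B`, `S.st x i ∈ B`, `y = S.st x i`.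

PROOF of `edge_path`: a face containing `a` and `b` lies in a block `B`; all vertices of the walk
are in `B`, so `{z, a}` and `{z, b}` are contained in faces (the finite set `{z, a}` is a nonempty
subset of `B`).

PROOF of `edge_of_sq`: both vertices lie in the block `S.sqa a i` (`coe_sqf`).
PROOF of `edge_of_G1`: for `b = S.st a i ≠ a` the step is good (`st_bad`), and `a, b` are vertices
number `0`, `1` of the run of `(a, i)` of length `k = 1` (`RunG`: `S.q a ∉ H`, `nb (S.q a) i ∉ H`).
PROOF of `edge_self`: the run of length `k = 0`.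
-/

set_option autoImplicit false

open UW1 URW

namespace UWK

namespace Sheet

variable {m : ℕ} {V : Type} {nb : V → Lab m → V} {H : Set V} {A : Type} (S : Sheet nb H A)
  (c : V → Rot m)

private theorem edge_of_blk {B : Set A} (hB : S.Blk c B) {x y : A} (hx : x ∈ B) (hy : y ∈ B) :
    UWT.Edge (S.cx c) x y := by
  classical
  refine ⟨{x, y}, ⟨⟨x, Finset.mem_insert_self _ _⟩, B, hB, fun z hz => ?_⟩,
    Finset.mem_insert_self _ _, Finset.mem_insert_of_mem (Finset.mem_singleton_self _)⟩
  rcases Finset.mem_insert.1 hz with h | h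
  · rw [h]
    exact hx
  · rw [Finset.mem_singleton.1 h]
    exact hy

/-- `x` and `y` are joined by a walk in `B` -/
private def Jn (B : Set A) (x y : A) : Prop := ∃ w : S.G1.Walk x y, ∀ z ∈ w.support, z ∈ B

variable {S} in
private theorem Jn.symm {B : Set A} {x y : A} (h : S.Jn B x y) : S.Jn B y x := by
  obtain ⟨w, hw⟩ := h
  refine ⟨w.reverse, fun z hz => hw z ?_⟩
  rwa [SimpleGraph.Walk.support_reverse, List.mem_reverse] at hz

variable {S} in
private theorem Jn.trans {B : Set A} {x y z : A} (h : S.Jn B x y) (h' : S.Jn B y z) :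
    S.Jn B x z := by
  obtain ⟨w, hw⟩ := h
  obtain ⟨w', hw'⟩ := h'
  refine ⟨w.append w', fun t ht => ?_⟩
  rcases (SimpleGraph.Walk.mem_support_append_iff w w').1 ht with h | h
  · exact hw t h
  · exact hw' t h

private theorem jn_refl {B : Set A} {x : A} (hx : x ∈ B) : S.Jn B x x := by
  refine ⟨SimpleGraph.Walk.nil, fun z hz => ?_⟩
  rw [SimpleGraph.Walk.support_nil, List.mem_singleton] at hz
  rw [hz]
  exact hx

private theorem jn_step {B : Set A} {x : A} {i : Lab m} (hx : x ∈ B) (hy : S.st x i ∈ B) :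
    S.Jn B x (S.st x i) := by
  by_cases h : x = S.st x i
  · rw [← h]
    exact S.jn_refl hx
  · have hadj : S.G1.Adj x (S.st x i) := ⟨h, i, rfl⟩
    refine ⟨SimpleGraph.Walk.cons hadj SimpleGraph.Walk.nil, fun z hz => ?_⟩
    rw [SimpleGraph.Walk.support_cons, SimpleGraph.Walk.support_nil, List.mem_cons,
      List.mem_singleton] at hz
    rcases hz with hz | hz
    · rw [hz]
      exact hx
    · rw [hz]
      exact hy

theorem edge_self (a : A) : UWT.Edge (S.cx c) a a := by
  refine S.edge_of_blk c (B := S.runa c (a, 0) 0) (Or.inr ⟨a, 0, 0, ?_, rfl⟩)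
    ⟨0, le_rfl, rfl⟩ ⟨0, le_rfl, rfl⟩
  intro j hj
  obtain rfl : j = 0 := Nat.le_zero.1 hj
  exact S.q_mem a

theorem edge_of_G1 {a b : A} (h : S.G1.Adj a b) : UWT.Edge (S.cx c) a b := by
  obtain ⟨hne, i, rfl⟩ := h
  have hgood : nb (S.q a) i ∉ H := fun hb => hne (S.st_bad a i hb).symm
  refine S.edge_of_blk c (B := S.runa c (a, i) 1) (Or.inr ⟨a, i, 1, ?_, rfl⟩)
    ⟨0, zero_le_one, rfl⟩ ⟨1, le_rfl, rfl⟩
  intro j hj
  rcases Nat.lt_or_ge j 1 with h | h
  · obtain rfl : j = 0 := by omega
    exact S.q_mem a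
  · obtain rfl : j = 1 := by omega
    exact hgood

theorem edge_of_sq {s : Finset A} (hs : s ∈ S.SqF) {x y : A} (hx : x ∈ s) (hy : y ∈ s) :
    UWT.Edge (S.cx c) x y := by
  obtain ⟨a, i, hg, rfl⟩ := hs
  have h1 : ∀ {z : A}, z ∈ S.sqf a i → z ∈ S.sqa a i := fun {z} hz => by
    rw [← S.coe_sqf a i]
    exact hz
  exact S.edge_of_blk c (Or.inl ⟨a, i, hg, rfl⟩) (h1 hx) (h1 hy)

theorem blk_path {B : Set A} (hB : S.Blk c B) {x y : A} (hx : x ∈ B) (hy : y ∈ B) :
    ∃ w : S.G1.Walk x y, ∀ z ∈ w.support, z ∈ B := by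
  have key : ∃ p, ∀ z ∈ B, S.Jn B p z := by
    rcases hB with ⟨a, i, hg, rfl⟩ | ⟨a, i, k, -, rfl⟩
    · have h0 : a ∈ S.sqa a i := Or.inl rfl
      have h1 : S.st a i ∈ S.sqa a i := Or.inr (Or.inl rfl)
      have h2 : S.st a (i + 1) ∈ S.sqa a i := Or.inr (Or.inr (Or.inl rfl))
      have h3 : S.st (S.st a i) (i + 1) ∈ S.sqa a i := Or.inr (Or.inr (Or.inr rfl))
      refine ⟨a, fun z hz => ?_⟩
      rcases hz with rfl | rfl | rfl | rfl
      · exact S.jn_refl h0
      · exact S.jn_step h0 h1
      · exact S.jn_step h0 h2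
      · exact (S.jn_step h0 h1).trans (S.jn_step h1 h3)
    · have h1 : ∀ j ≤ k, S.Jn (S.runa c (a, i) k) a ((S.nx c)^[j] (a, i)).1 := by
        intro j
        induction j with
        | zero => exact fun _ => S.jn_refl ⟨0, Nat.zero_le _, rfl⟩
        | succ j ih =>
          intro hj
          have h2 : ((S.nx c)^[j + 1] (a, i)).1 =
              S.st ((S.nx c)^[j] (a, i)).1 ((S.nx c)^[j] (a, i)).2 := by
            rw [Function.iterate_succ_apply']
            rfl
          refine (ih (by omega)).trans ?_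
          rw [h2]
          exact S.jn_step ⟨j, by omega, rfl⟩ ⟨j + 1, hj, h2.symm⟩
      refine ⟨a, fun z hz => ?_⟩
      obtain ⟨j, hj, rfl⟩ := hz
      exact h1 j hj
  obtain ⟨p, hp⟩ := key
  exact (hp x hx).symm.trans (hp y hy)

theorem edge_path {a b : A} (h : UWT.Edge (S.cx c) a b) :
    ∃ w : S.G1.Walk a b, ∀ z ∈ w.support, UWT.Edge (S.cx c) z a ∧ UWT.Edge (S.cx c) z b := by
  obtain ⟨s, ⟨-, B, hB, hs⟩, ha, hb⟩ := h
  obtain ⟨w, hw⟩ := S.blk_path c hB (hs a ha) (hs b hb)
  exact ⟨w, fun z hz => ⟨S.edge_of_blk c hB (hw z hz) (hs a ha),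
    S.edge_of_blk c hB (hw z hz) (hs b hb)⟩⟩

end Sheet

end UWK
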