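import Pool.Agent.UWK.Path

/-!
# UWK package Ray: the ray lemma

`F` is a chain of good squares filling the closed walk `w`. For a vertex `x` and a label `i` let
`F̂ x i = F (S.sqf x i)` if `SqG nb H (S.q x) i` and `0` otherwise.

PROOF of `coeff_edge`. Let `i` be a good label at `x` (`nb (S.q x) i ∉ H`), so `y = S.st x i ≠ x`
is a `G1`-neighbour. The coefficient of `s(x, y)` in `S.bdc F` is the sum of `F s` over the squares
`s` of the support of `F` which contain `x` and `y` (by definition of `bd`: `s(x, y)` is in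
`s.sym2` and is an edge of `G1`). A good square containing `x` is `S.sqf x j` for some `j` with
`SqG nb H (S.q x) j` (`sqG_1` - `sqG_3`, `coe_sqf`); it contains `y` iff `j = i` or `j + 1 = i`
(`S.st x i = S.st x j` implies `nb v i = nb v j`, so `i = j` by `Sys.uniq`;
`S.st x i = S.st (S.st x j) (j + 1)` contradicts `Sys.sqn` with `l = [i]`; `v = S.q x`). And
`S.sqf x i ≠ S.sqf x (i - 1)` if both are good (`S.st x (i + 1)` is in the first, and not in the
second: `Sys.uniq` and `Sys.sqn` as before; `i + 1 ≠ i - 1` because `8 * m + 1` is at least `25`).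
So the coefficient is `F̂ x i + F̂ x (i - 1)`.

PROOF of `around`. If `x` is not on `w` then no edge of `w` contains `x`
(`SimpleGraph.Walk.fst_mem_support_of_mem_edges`), so the coefficient of `s(x, S.st x i)` in the
sum of the edges of `w` is `0` and `F̂ x i = F̂ x (i - 1)` in `ZMod 2`, for every good label `i`. If
`i` is not good at `x` then neither square `x, i` nor `x, i - 1` is good and both are `0`. Hence
`F̂ x i = F̂ x (i - 1)` for all `i`, so `F̂ x` is constant (induction on `ZMod (8 * m + 1)`, e.g. by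
`ZMod.natCast_zmod_surjective`). If `F s ≠ 0` for a square `s ∋ x` then `s = S.sqf x j`, so
`F̂ x j ≠ 0` and all `F̂ x i ≠ 0`; in particular `SqG nb H (S.q x) i` and
`S.sqf x i ∈ F.support` for all `i`.

PROOF of `ray`. Let `x` be not on `w`, in a square of `F`. Consider the run `x j = ((S.nx c)^[j]
(x, 0)).1`. By `Sys.hit` there is a smallest `j₀` with `((nxt nb c)^[j₀] (S.q x, 0)).1 ∈ H`;
`j₀ ≥ 1` because `S.q x ∉ H`. So `RunG nb c H (S.q x, 0) (j₀ - 1)`. If no `x j`, `j < j₀`, is on
`w` then by induction all `x j` (`j < j₀`) are in squares of `F` (`around` for `x j` gives the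
square `S.sqf (x j) (label j)`, which contains `x (j + 1)`). But `around` for `x (j₀ - 1)` says
that all its neighbours are not over `H`, contradiction. So some `x j` with `j < j₀` is on `w`, and
`x`, `x j` are in the block `S.runa c (x, 0) (j₀ - 1)`; the finite set `{x, x j}` is a face.
-/

set_option autoImplicit false

open UW1 URW

namespace UWK

namespace Sheet

variable {m : ℕ} {V : Type} {nb : V → Lab m → V} {H : Set V} {A : Type} (S : Sheet nb H A)
  {c : V → Rot m} {L : ℕ}

private theorem nb_ne (hS : Sys nb c H L) (v : V) (i : Lab m) : nb v i ≠ v := by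
  intro h
  have h1 : [i] = [] := hS.uniq v [i] [] (by unfold NiceW; simp) (by unfold NiceW; simp)
    (by have := hS.two; simp only [List.length_singleton]; omega) (Nat.zero_le _) h
  exact absurd h1 (List.cons_ne_nil _ _)

private theorem nb_inj (hS : Sys nb c H L) (v : V) {i j : Lab m} (h : nb v i = nb v j) :
    i = j := by
  have h1 : [i] = [j] := hS.uniq v [i] [j] (by unfold NiceW; simp) (by unfold NiceW; simp)
    (by have := hS.two; simp only [List.length_singleton]; omega)
    (by have := hS.two; simp only [List.length_singleton]; omega) h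
  exact (List.cons.inj h1).1

private theorem nb_sq (hS : Sys nb c H L) (v : V) (i j : Lab m) :
    nb v j ≠ nb (nb v i) (i + 1) :=
  hS.sqn v i [j] (by unfold NiceW; simp)
    (by have := hS.two; simp only [List.length_singleton]; omega)

private theorem mem_sqf {x y : A} {i : Lab m} : y ∈ S.sqf x i ↔
    y = x ∨ y = S.st x i ∨ y = S.st x (i + 1) ∨ y = S.st (S.st x i) (i + 1) := by
  unfold sqf
  simp

private theorem sq_at (hS : Sys nb c H L) {s : Finset A} (hs : s ∈ S.SqF) {x : A}
    (hx : x ∈ s) : ∃ j, SqG nb H (S.q x) j ∧ s = S.sqf x j := by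
  obtain ⟨a, k, hk, rfl⟩ := hs
  have key : ∀ y, SqG nb H (S.q y) k ∧ S.sqa y k = S.sqa a k →
      ∃ j, SqG nb H (S.q y) j ∧ S.sqf a k = S.sqf y j := by
    rintro y ⟨h2, h3⟩
    refine ⟨k, h2, Finset.coe_injective ?_⟩
    rw [coe_sqf, coe_sqf, h3]
  rcases S.mem_sqf.1 hx with rfl | rfl | rfl | rfl
  · exact ⟨k, hk, rfl⟩
  · exact key _ (S.sqG_1 hS.invol hS.comm hk)
  · exact key _ (S.sqG_2 hS.invol hS.comm hk)
  · exact key _ (S.sqG_3 hS.invol hS.comm hk)

private theorem lab_ne (hm : 3 ≤ m) : (1 : Lab m) ≠ 0 ∧ (2 : Lab m) ≠ 0 := by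
  constructor
  · intro h
    have h1 : ((1 : ℕ) : ZMod (8 * m + 1)) = 0 := by exact_mod_cast h
    rw [ZMod.natCast_eq_zero_iff] at h1
    have h2 := Nat.le_of_dvd (by norm_num) h1
    omega
  · intro h
    have h1 : ((2 : ℕ) : ZMod (8 * m + 1)) = 0 := by exact_mod_cast h
    rw [ZMod.natCast_eq_zero_iff] at h1
    have h2 := Nat.le_of_dvd (by norm_num) h1
    omega

private theorem q_op {x : A} {i : Lab m} (h : SqG nb H (S.q x) i) :
    S.q (S.st (S.st x i) (i + 1)) = nb (nb (S.q x) i) (i + 1) := by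
  have h1 := S.q_st x i h.2.1
  rw [S.q_st _ _ (by rw [h1]; exact h.2.2.2), h1]

private theorem sq_ne (hS : Sys nb c H L) {x : A} {i : Lab m} (h : SqG nb H (S.q x) i)
    (h' : SqG nb H (S.q x) (i - 1)) : S.sqf x i ≠ S.sqf x (i - 1) := by
  intro he
  obtain ⟨e1, e2⟩ := lab_ne hS.three
  have h1 : S.st x (i + 1) ∈ S.sqf x (i - 1) := by
    rw [← he, mem_sqf]
    exact Or.inr (Or.inr (Or.inl rfl))
  have h2 := S.q_st x (i + 1) h.2.2.1
  rcases S.mem_sqf.1 h1 with h3 | h3 | h3 | h3
  · rw [h3] at h2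
    exact nb_ne hS _ _ h2.symm
  · rw [h3, S.q_st x (i - 1) h'.2.1] at h2
    have h4 := nb_inj hS _ h2
    apply e2
    linear_combination -h4
  · rw [h3, S.q_st x (i - 1 + 1) h'.2.2.1] at h2
    have h4 := nb_inj hS _ h2
    apply e1
    linear_combination -h4
  · rw [h3, S.q_op h'] at h2
    exact nb_sq hS _ _ _ h2.symm

open Classical in
private theorem bd_apply (s : Finset A) (e : Sym2 A) :
    S.bd s e = if e ∈ s.sym2 ∧ e ∈ S.G1.edgeSet then 1 else 0 := by
  unfold bd
  rw [Finsupp.finsetSum_apply]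
  simp only [Finsupp.single_apply]
  rw [Finset.sum_ite_eq']
  simp only [Finset.mem_filter]

private theorem bdc_apply (F : Finset A →₀ ZMod 2) (e : Sym2 A) :
    S.bdc F e = ∑ s ∈ F.support, F s * S.bd s e := by
  unfold bdc Finsupp.sum
  rw [Finsupp.finsetSum_apply]
  simp only [Finsupp.smul_apply, smul_eq_mul]

open Classical in
private theorem sum_one (F : Finset A →₀ ZMod 2) (P : Prop) (s₀ : Finset A) :
    (∑ s ∈ F.support, if P ∧ s = s₀ then F s else 0) = if P then F s₀ else 0 := by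
  by_cases hP : P
  · simp only [hP, true_and, if_true]
    rw [Finset.sum_ite_eq']
    split_ifs with h
    · rfl
    · exact (Finsupp.notMem_support_iff.1 h).symm
  · simp only [hP, false_and, if_false, Finset.sum_const_zero]

open Classical in
theorem coeff_edge (hS : Sys nb c H L) {F : Finset A →₀ ZMod 2}
    (hF : ∀ s ∈ F.support, s ∈ S.SqF) (x : A) (i : Lab m) (hi : nb (S.q x) i ∉ H) :
    S.bdc F s(x, S.st x i) = (if SqG nb H (S.q x) i then F (S.sqf x i) else 0) +
      (if SqG nb H (S.q x) (i - 1) then F (S.sqf x (i - 1)) else 0) := by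
  have hy : S.q (S.st x i) = nb (S.q x) i := S.q_st x i hi
  have hxy : x ≠ S.st x i := by
    intro h
    rw [← h] at hy
    exact nb_ne hS _ _ hy.symm
  have hE : s(x, S.st x i) ∈ S.G1.edgeSet := by
    rw [SimpleGraph.mem_edgeSet]
    exact ⟨hxy, i, rfl⟩
  have h1 : ∀ s ∈ F.support, F s * S.bd s s(x, S.st x i) =
      (if SqG nb H (S.q x) i ∧ s = S.sqf x i then F s else 0) +
        (if SqG nb H (S.q x) (i - 1) ∧ s = S.sqf x (i - 1) then F s else 0) := by
    intro s hs
    rw [bd_apply]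
    by_cases hm : x ∈ s ∧ S.st x i ∈ s
    · rw [if_pos ⟨Finset.mk_mem_sym2_iff.2 hm, hE⟩, mul_one]
      obtain ⟨j, hj, rfl⟩ := S.sq_at hS (hF s hs) hm.1
      rcases S.mem_sqf.1 hm.2 with h | h | h | h
      · exact absurd h.symm hxy
      · have h2 : nb (S.q x) i = nb (S.q x) j := by rw [← hy, h, S.q_st x j hj.2.1]
        have h3 := nb_inj hS _ h2
        subst h3
        rw [if_pos ⟨hj, rfl⟩, if_neg, add_zero]
        rintro ⟨h4, h5⟩
        exact S.sq_ne hS hj h4 h5
      · have h2 : nb (S.q x) i = nb (S.q x) (j + 1) := by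
          rw [← hy, h, S.q_st x (j + 1) hj.2.2.1]
        have h3 := nb_inj hS _ h2
        subst h3
        have h6 : j + 1 - 1 = j := add_sub_cancel_right _ _
        rw [h6, if_neg, if_pos ⟨hj, rfl⟩, zero_add]
        rintro ⟨h4, h5⟩
        refine S.sq_ne hS h4 (by rw [h6]; exact hj) ?_
        rw [h6]
        exact h5.symm
      · have h2 : nb (S.q x) i = nb (nb (S.q x) j) (j + 1) := by rw [← hy, h, S.q_op hj]
        exact absurd h2 (nb_sq hS _ _ _)
    · rw [if_neg, mul_zero, if_neg, if_neg, add_zero]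
      · rintro ⟨h4, rfl⟩
        refine hm ⟨S.mem_sqf.2 (Or.inl rfl), S.mem_sqf.2 (Or.inr (Or.inr (Or.inl ?_)))⟩
        rw [sub_add_cancel]
      · rintro ⟨h4, rfl⟩
        exact hm ⟨S.mem_sqf.2 (Or.inl rfl), S.mem_sqf.2 (Or.inr (Or.inl rfl))⟩
      · rintro ⟨h4, -⟩
        exact hm (Finset.mk_mem_sym2_iff.1 h4)
  rw [bdc_apply, Finset.sum_congr rfl h1, Finset.sum_add_distrib, sum_one, sum_one]

private theorem edges_zero (l : List (Sym2 A)) (e : Sym2 A) (h : e ∉ l) :
    (l.map fun e => Finsupp.single e (1 : ZMod 2)).sum e = 0 := by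
  induction l with
  | nil => rfl
  | cons b l ih =>
    rw [List.map_cons, List.sum_cons, Finsupp.add_apply,
      ih (fun h' => h (List.mem_cons_of_mem _ h')), add_zero, Finsupp.single_eq_of_ne]
    rintro rfl
    exact h List.mem_cons_self

open Classical in
private theorem fh_step (hS : Sys nb c H L) {F : Finset A →₀ ZMod 2} {a : A}
    {w : S.G1.Walk a a} (hF : S.Fills F w) {x : A} (hx : x ∉ w.support) (i : Lab m) :
    (if SqG nb H (S.q x) i then F (S.sqf x i) else 0) =
      (if SqG nb H (S.q x) (i - 1) then F (S.sqf x (i - 1)) else 0) := by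
  by_cases hi : nb (S.q x) i ∈ H
  · rw [if_neg (fun h => h.2.1 hi), if_neg]
    intro h
    have h1 := h.2.2.1
    rw [sub_add_cancel] at h1
    exact h1 hi
  · have h1 := S.coeff_edge hS hF.1 x i hi
    rw [← hF.2, edges_zero _ _ fun h => hx (w.fst_mem_support_of_mem_edges h)] at h1
    exact CharTwo.add_eq_zero.1 h1.symm

open Classical in
private theorem fh_const (hS : Sys nb c H L) {F : Finset A →₀ ZMod 2} {a : A}
    {w : S.G1.Walk a a} (hF : S.Fills F w) {x : A} (hx : x ∉ w.support) (i j : Lab m) :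
    (if SqG nb H (S.q x) i then F (S.sqf x i) else 0) =
      (if SqG nb H (S.q x) j then F (S.sqf x j) else 0) := by
  obtain ⟨n, hn⟩ := ZMod.natCast_zmod_surjective (i - j)
  have h1 : ∀ n : ℕ, (if SqG nb H (S.q x) (j + n) then F (S.sqf x (j + n)) else 0) =
      (if SqG nb H (S.q x) j then F (S.sqf x j) else 0) := by
    intro n
    induction n with
    | zero => rw [Nat.cast_zero, add_zero]
    | succ n ih =>
      have h2 := S.fh_step hS hF hx (j + ((n + 1 : ℕ) : Lab m))
      have h3 : j + ((n + 1 : ℕ) : Lab m) - 1 = j + n := by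
        push_cast
        ring
      rw [h3] at h2
      rw [h2, ih]
  have h2 := h1 n
  have h3 : j + (n : Lab m) = i := by
    rw [hn]
    ring
  rwa [h3] at h2

theorem around (hS : Sys nb c H L) {F : Finset A →₀ ZMod 2} {a : A} {w : S.G1.Walk a a}
    (hF : S.Fills F w) {x : A} (hx : x ∉ w.support) {s : Finset A} (hs : s ∈ F.support)
    (hxs : x ∈ s) (i : Lab m) : SqG nb H (S.q x) i ∧ S.sqf x i ∈ F.support := by
  classical
  obtain ⟨j, hj, rfl⟩ := S.sq_at hS (hF.1 s hs) hxs
  have h1 := S.fh_const hS hF hx i j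
  rw [if_pos hj] at h1
  have h2 : F (S.sqf x j) ≠ 0 := Finsupp.mem_support_iff.1 hs
  rw [← h1] at h2
  by_cases h3 : SqG nb H (S.q x) i
  · rw [if_pos h3] at h2
    exact ⟨h3, Finsupp.mem_support_iff.2 h2⟩
  · rw [if_neg h3] at h2
    exact absurd rfl h2

theorem ray (hS : Sys nb c H L) {F : Finset A →₀ ZMod 2} {a : A} {w : S.G1.Walk a a}
    (hF : S.Fills F w) {x : A} (hx : x ∉ w.support) {s : Finset A} (hs : s ∈ F.support)
    (hxs : x ∈ s) : ∃ y ∈ w.support, UWT.Edge (S.cx c) x y := by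
  classical
  by_contra hcon
  push Not at hcon
  have hex : ∃ j, ((nxt nb c)^[j] (S.q x, 0)).1 ∈ H := by
    obtain ⟨j, -, hj⟩ := hS.hit (S.q x, 0)
    exact ⟨j, hj⟩
  obtain ⟨j0, hj0⟩ : ∃ j0, Nat.find hex = j0 + 1 := by
    refine Nat.exists_eq_succ_of_ne_zero fun h0 => ?_
    have h1 := Nat.find_spec hex
    rw [h0] at h1
    exact S.q_mem x h1
  have hrun : RunG nb c H (S.q x, 0) j0 := fun j hj => Nat.find_min hex (by omega)
  have hedge : ∀ j ≤ j0, UWT.Edge (S.cx c) x ((S.nx c)^[j] (x, 0)).1 := by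
    intro j hj
    refine ⟨{x, ((S.nx c)^[j] (x, 0)).1}, ⟨⟨x, Finset.mem_insert_self _ _⟩,
      S.runa c (x, 0) j0, Or.inr ⟨x, 0, j0, hrun, rfl⟩, ?_⟩, Finset.mem_insert_self _ _,
      Finset.mem_insert_of_mem (Finset.mem_singleton_self _)⟩
    intro z hz
    rw [Finset.mem_insert, Finset.mem_singleton] at hz
    rcases hz with rfl | rfl
    · exact ⟨0, Nat.zero_le _, rfl⟩
    · exact ⟨j, hj, rfl⟩
  have hout : ∀ j ≤ j0, ((S.nx c)^[j] (x, 0)).1 ∉ w.support := fun j hj h =>
    hcon _ h (hedge j hj)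
  have hsq : ∀ j ≤ j0, ∃ s ∈ F.support, ((S.nx c)^[j] (x, 0)).1 ∈ s := by
    intro j
    induction j with
    | zero =>
      intro _
      exact ⟨s, hs, hxs⟩
    | succ j ih =>
      intro hj
      obtain ⟨s', hs', hx'⟩ := ih (by omega)
      have h1 := S.around hS hF (hout j (by omega)) hs' hx' ((S.nx c)^[j] (x, 0)).2
      refine ⟨_, h1.2, ?_⟩
      rw [Function.iterate_succ_apply', mem_sqf]
      exact Or.inr (Or.inl rfl)
  obtain ⟨s', hs', hx'⟩ := hsq j0 le_rfl
  have h1 := S.around hS hF (hout j0 le_rfl) hs' hx' ((S.nx c)^[j0] (x, 0)).2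
  have h2 := S.nx_iter c hrun le_rfl
  have h3 : nb (S.q ((S.nx c)^[j0] (x, 0)).1) ((S.nx c)^[j0] (x, 0)).2 =
      ((nxt nb c)^[j0 + 1] (S.q x, 0)).1 := by
    rw [Function.iterate_succ_apply', ← h2]
    rfl
  apply h1.1.2.1
  rw [h3, ← hj0]
  exact Nat.find_spec hex

end Sheet

end UWK
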