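import Pool.Agent.UWK.Basic

/-!
# UWK package RelL: two vertices of a block

PROOF of `rel_of_sq`. Let `x, y ∈ S.sqa a i`. By `sqG_1`, `sqG_2`, `sqG_3` we may assume that
`x = a` (the square is the same set with `x` as the base corner and the same `i`). Then `y = a`
(word `[]`), `y = S.st a i` (word `[i]`, length `1 < L` as `2 ≤ L`), `y = S.st a (i + 1)` (word
`[i + 1]`) or `y` is the opposite corner (second alternative of `Rel`).

PROOF of `rel_of_run`. Let `x`, `y` be the vertices number `j ≤ j'` of the run (the case `j' ≤ j`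
follows by reversing words). The word of the labels number `j, …, j' - 1` is nice (`nx_label`),
good (`nx_good`), leads from `x` to `y`, and its length is `j' - j ≤ k < L`: by `Sys.hit` some
vertex number `< L` of the run is in `H`, and the vertices number `≤ k` are not. For the reverse
direction: the reverse of a nice word is nice (`cd (-x) = cd x`), good (`goodW_reverse`) and leads
back (`foldl_reverse`).

PROOF of `Rel.rigid`. `b` and `b'` are both `Rel` to `a` and lie over the same vertex. Nice/nice: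
`walk nb (q a) l = q b = q b' = walk nb (q a) l'` (`q_foldl`), so `l = l'` by `Sys.uniq` and
`b = b'`. Nice/diagonal: `walk nb (q a) l = nb (nb (q a) i) (i + 1)` contradicts `Sys.sqn`.
Diagonal/diagonal: `Sys.sq2`.
-/

set_option autoImplicit false

open UW1 URW

namespace UWK

namespace Sheet

variable {m : ℕ} {V : Type} {nb : V → Lab m → V} {H : Set V} {A : Type} (S : Sheet nb H A)
  {c : V → Rot m} {L : ℕ}

theorem rel_self (hS : Sys nb c H L) (a : A) : S.Rel L a a :=
  Or.inl ⟨[], List.isChain_nil, lt_of_lt_of_le two_pos hS.two, fun l' i h => by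
    have := h.length_le
    simp at this, rfl⟩

private theorem good_single {a : A} {i : Lab m} (h : nb (S.q a) i ∉ H) : S.GoodW a [i] := by
  intro l' i' hp
  have h1 : l' = [] := by
    have h2 := hp.length_le
    rw [List.length_append, List.length_singleton, List.length_singleton] at h2
    exact List.length_eq_zero_iff.1 (by omega)
  subst h1
  rw [List.nil_append] at hp
  have h3 : i' = i := by
    rw [List.cons_prefix_cons] at hp
    exact hp.1
  rw [h3]
  exact h

private theorem rel_corner (hS : Sys nb c H L) {a : A} {i : Lab m} (h : SqG nb H (S.q a) i)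
    {y : A} (hy : y ∈ S.sqa a i) : S.Rel L a y := by
  have h2 : 1 < L := hS.two
  rcases hy with rfl | rfl | rfl | hy
  · exact S.rel_self hS _
  · exact Or.inl ⟨[i], List.isChain_singleton _, h2, S.good_single h.2.1, rfl⟩
  · exact Or.inl ⟨[i + 1], List.isChain_singleton _, h2, S.good_single h.2.2.1, rfl⟩
  · exact Or.inr ⟨i, h, hy⟩

theorem rel_of_sq (hS : Sys nb c H L) {a : A} {i : Lab m} (h : SqG nb H (S.q a) i) {x y : A}
    (hx : x ∈ S.sqa a i) (hy : y ∈ S.sqa a i) : S.Rel L x y := by
  rcases hx with rfl | rfl | rfl | hx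
  · exact S.rel_corner hS h hy
  · obtain ⟨h1, h2⟩ := S.sqG_1 hS.invol hS.comm h
    exact S.rel_corner hS h1 (h2.symm ▸ hy)
  · obtain ⟨h1, h2⟩ := S.sqG_2 hS.invol hS.comm h
    exact S.rel_corner hS h1 (h2.symm ▸ hy)
  · obtain ⟨h1, h2⟩ := S.sqG_3 hS.invol hS.comm h
    have h3 : x = S.st (S.st a i) (i + 1) := hx
    subst h3
    exact S.rel_corner hS h1 (h2.symm ▸ hy)

private theorem run_word (hm : 3 ≤ m) {a : A} {i : Lab m} {k : ℕ}
    (h : RunG nb c H (S.q a, i) k) (d : ℕ) : ∀ j, j + d ≤ k → ∃ l : List (Lab m),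
      NiceW l ∧ l.length = d ∧ S.GoodW ((S.nx c)^[j] (a, i)).1 l ∧
      ((S.nx c)^[j + d] (a, i)).1 = l.foldl S.st ((S.nx c)^[j] (a, i)).1 ∧
      ∀ x ∈ l.head?, x = ((S.nx c)^[j] (a, i)).2 := by
  induction d with
  | zero =>
    intro j _
    refine ⟨[], List.isChain_nil, rfl, ?_, rfl, ?_⟩
    · intro l' i' hp
      have h1 := hp.length_le
      simp at h1
    · intro x hx
      simp at hx
  | succ d ih =>
    intro j hj
    obtain ⟨l, h1, h2, h3, h4, h5⟩ := ih (j + 1) (by omega)
    have e : ((S.nx c)^[j + 1] (a, i)).1 =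
        S.st ((S.nx c)^[j] (a, i)).1 ((S.nx c)^[j] (a, i)).2 := by
      rw [Function.iterate_succ_apply']
      rfl
    refine ⟨((S.nx c)^[j] (a, i)).2 :: l, ?_, ?_, ?_, ?_, ?_⟩
    · refine List.isChain_cons.2 ⟨fun y hy => ?_, h1⟩
      rw [h5 y hy]
      exact S.nx_label c hm (a, i) j
    · rw [List.length_cons, h2]
    · intro l' i' hp
      cases l' with
      | nil =>
        rw [List.nil_append, List.cons_prefix_cons] at hp
        rw [hp.1]
        exact S.nx_good c h (by omega)
      | cons y l' =>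
        rw [List.cons_append, List.cons_prefix_cons] at hp
        rw [hp.1, List.foldl_cons, ← e]
        exact h3 l' i' hp.2
    · rw [List.foldl_cons, ← e, ← h4]
      congr 2
      omega
    · intro x hx
      rw [List.head?_cons, Option.mem_some_iff] at hx
      exact hx.symm

theorem rel_of_run (hS : Sys nb c H L) {a : A} {i : Lab m} {k : ℕ}
    (h : RunG nb c H (S.q a, i) k) {x y : A}
    (hx : x ∈ S.runa c (a, i) k) (hy : y ∈ S.runa c (a, i) k) : S.Rel L x y := by
  have hk : k < L := by
    obtain ⟨j₀, h1, h2⟩ := hS.hit (S.q a, i)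
    by_contra hcon
    exact h j₀ (by omega) h2
  obtain ⟨j, hj, rfl⟩ := hx
  obtain ⟨j', hj', rfl⟩ := hy
  rcases le_total j j' with hjj | hjj
  · obtain ⟨l, h1, h2, h3, h4, -⟩ := S.run_word hS.three h (j' - j) j (by omega)
    refine Or.inl ⟨l, h1, by omega, h3, ?_⟩
    rw [← h4]
    congr 2
    omega
  · obtain ⟨l, h1, h2, h3, h4, -⟩ := S.run_word hS.three h (j - j') j' (by omega)
    have e : j' + (j - j') = j := by omega
    rw [e] at h4
    refine Or.inl ⟨l.reverse, ?_, by rw [List.length_reverse]; omega, ?_, ?_⟩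
    · refine List.isChain_reverse.2 (h1.imp fun x y hxy => ?_)
      rw [cd_sub_comm]
      exact hxy
    · rw [h4]
      exact S.goodW_reverse hS.invol h3
    · rw [h4, S.foldl_reverse]

private theorem q_diag {a : A} {i : Lab m} (h : SqG nb H (S.q a) i) :
    S.q (S.st (S.st a i) (i + 1)) = nb (nb (S.q a) i) (i + 1) := by
  have h1 := S.q_st a i h.2.1
  rw [S.q_st (S.st a i) (i + 1) (by rw [h1]; exact h.2.2.2), h1]

theorem rel_of_blk (hS : Sys nb c H L) {B : Set A} (hB : S.Blk c B) {x y : A} (hx : x ∈ B)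
    (hy : y ∈ B) : S.Rel L x y := by
  rcases hB with ⟨a, i, h, rfl⟩ | ⟨a, i, k, h, rfl⟩
  · exact S.rel_of_sq hS h hx hy
  · exact S.rel_of_run hS h hx hy

theorem Rel.rigid (hS : Sys nb c H L) {a b b' : A} (h : S.Rel L a b) (h' : S.Rel L a b')
    (hq : S.q b = S.q b') : b = b' := by
  rcases h with ⟨l, h1, h2, h3, rfl⟩ | ⟨i, h1, rfl⟩
  · rcases h' with ⟨l', h1', h2', h3', rfl⟩ | ⟨i', h1', rfl⟩
    · rw [S.q_foldl h3, S.q_foldl h3'] at hq
      rw [hS.uniq _ l l' h1 h1' h2.le h2'.le hq]
    · rw [S.q_foldl h3, S.q_diag h1'] at hq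
      exact absurd hq (hS.sqn _ _ l h1 h2.le)
  · rcases h' with ⟨l', h1', h2', h3', rfl⟩ | ⟨i', h1', rfl⟩
    · rw [S.q_foldl h3', S.q_diag h1] at hq
      exact absurd hq.symm (hS.sqn _ _ l' h1' h2'.le)
    · rw [S.q_diag h1, S.q_diag h1'] at hq
      rw [hS.sq2 _ _ _ hq]

end Sheet

end UWK
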