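import Pool.Agent.UWK.Bound
import Pool.Agent.UWK.Ep

/-!
# UWK package Sper: Sperner's lemma for a chain of squares

`ep lam e` is `1` if the ends of `e` have the labels `0` and `1`, and `0` otherwise.

PROOF. Let `Φ : (Sym2 A →₀ ZMod 2) → ZMod 2` be the linear map with
`Φ (single e t) = t * ep lam e` (`Finsupp.linearCombination`, `Finsupp.lsum` or
`fun z => z.sum fun e t => t * ep lam e`). Then `Φ` of the sum of the edges of `w` is the given
nonzero sum, and it equals `Φ (S.bdc F) = ∑ s ∈ F.support, F s * Φ (S.bd s)`. So there is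
`s ∈ F.support` with `Φ (S.bd s) ≠ 0`; `s = S.sqf a i` and by `bd_sqf` this is
`e(a, x) + e(x, d) + e(d, y) + e(y, a)` with `e = ep lam` of the pair, for the corners
`a, x, d, y`. If the three labels do not all occur at the four corners this sum is `0` in `ZMod 2`
(decide over the four labels: `∀ p q r t : Fin 3, …`).
-/

set_option autoImplicit false

open UW1 URW

namespace UWK

private def ee (p q : Fin 3) : ZMod 2 := if (p = 0 ∧ q = 1) ∨ (p = 1 ∧ q = 0) then 1 else 0

private theorem ee_four : ∀ p q r t k : Fin 3, p ≠ k → q ≠ k → r ≠ k → t ≠ k →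
    ee p q + ee q r + ee r t + ee t p = 0 := by
  decide

private theorem ep_mk {A : Type} (lam : A → Fin 3) (a b : A) :
    ep lam s(a, b) = ee (lam a) (lam b) := rfl

namespace Sheet

variable {m : ℕ} {V : Type} {nb : V → Lab m → V} {H : Set V} {A : Type} (S : Sheet nb H A)
  {c : V → Rot m} {L : ℕ}

theorem sperner (hS : Sys nb c H L) {F : Finset A →₀ ZMod 2} {a : A} {w : S.G1.Walk a a}
    (hF : S.Fills F w) (lam : A → Fin 3) (h : (w.edges.map (ep lam)).sum ≠ 0) :
    ∃ s ∈ F.support, ∀ k : Fin 3, ∃ x ∈ s, lam x = k := by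
  classical
  by_contra hcon
  push Not at hcon
  apply h
  let Φ : (Sym2 A →₀ ZMod 2) →ₗ[ZMod 2] ZMod 2 := Finsupp.linearCombination (ZMod 2) (ep lam)
  have h1 : ∀ e : Sym2 A, Φ (Finsupp.single e 1) = ep lam e := by
    intro e
    change Finsupp.linearCombination (ZMod 2) (ep lam) (Finsupp.single e 1) = _
    rw [Finsupp.linearCombination_single, one_smul]
  have h2 : Φ ((w.edges.map fun e => Finsupp.single e (1 : ZMod 2)).sum) =
      (w.edges.map (ep lam)).sum := by
    rw [map_list_sum, List.map_map]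
    congr 1
    exact List.map_congr_left fun e _ => h1 e
  rw [← h2, hF.2]
  have h3 : Φ (S.bdc F) = F.sum fun s t => t • Φ (S.bd s) := by
    unfold bdc
    rw [map_finsuppSum]
    simp only [map_smul]
  rw [h3, Finsupp.sum]
  refine Finset.sum_eq_zero fun s hs => ?_
  obtain ⟨k, hk⟩ := hcon s hs
  obtain ⟨b, i, hg, rfl⟩ := hF.1 s hs
  have h4 : Φ (S.bd (S.sqf b i)) = 0 := by
    rw [S.bd_sqf hS hg]
    simp only [map_add, h1, ep_mk]
    refine ee_four _ _ _ _ k (hk _ ?_) (hk _ ?_) (hk _ ?_) (hk _ ?_) <;> simp [sqf]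
  rw [h4, smul_zero]

end Sheet

end UWK
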