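import Pool.Agent.UWK.Ray
import Pool.Agent.UWK.Sper
import Pool.Agent.UWK.ConnS

/-!
# UWK package Tri: three points of a closed walk with different labels and small distances

PROOF. By `exists_fill` there is `F` with `S.Fills F w`. Extend the labelling `l0` from the
vertices of `w`: `R v = v` if `v ∈ w.support`; otherwise, if there is `y ∈ w.support` with
`Edge v y`, let `R v` be such a `y` (choice); otherwise `R v = v`. Put `lam v = l0 (R v)`. For an
edge of `w` both ends are in `w.support`, so `ep lam = ep l0` on the edges of `w` and the sum for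
`lam` is nonzero. By `sperner` there are `s ∈ F.support` and `p k ∈ s` with `lam (p k) = k`. Every
`p k` satisfies `R (p k) ∈ w.support` and `Edge (p k) (R (p k))`: clear if `p k ∈ w.support`
(`edge_self`), and by `ray` otherwise. Put `u k = R (p k)`. An edge (`Edge x y`) has
`G2`-distance at most one (equal or adjacent), and `Edge (p k) (p l)` by `edge_of_sq`
(`s ∈ S.SqF`), so the distance of `u k` and `u l` is at most `1 + 1 + 1` (triangle inequality,
`g2_conn`).
PROOF of `dist_of_edge`: `Edge x y` means equal or `G2.Adj`.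
-/

set_option autoImplicit false

open UW1 URW

namespace UWK

namespace Sheet

variable {m : ℕ} {V : Type} {nb : V → Lab m → V} {H : Set V} {A : Type} (S : Sheet nb H A)
  {c : V → Rot m} {L : ℕ}

theorem dist_of_edge {x y : A} (h : UWT.Edge (S.cx c) x y) : (S.G2 c).dist x y ≤ 1 := by
  by_cases hxy : x = y
  · subst hxy
    rw [SimpleGraph.dist_self]
    exact Nat.zero_le _
  · have hadj : (S.G2 c).Adj x y := ⟨hxy, h⟩
    exact (SimpleGraph.dist_eq_one_iff_adj.2 hadj).le

theorem tri [Finite V] (hS : Sys nb c H L) (hG : S.Gen) (hU : S.UP) (a : A)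
    (w : S.G1.Walk a a) (l0 : A → Fin 3) (h : (w.edges.map (ep l0)).sum ≠ 0) :
    ∃ u : Fin 3 → A, (∀ k, u k ∈ w.support ∧ l0 (u k) = k) ∧
      ∀ k l, (S.G2 c).dist (u k) (u l) ≤ 3 := by
  classical
  obtain ⟨F, hF⟩ := S.exists_fill hS hU w
  let R : A → A := fun v => if v ∈ w.support then v else
    if hy : ∃ y ∈ w.support, UWT.Edge (S.cx c) v y then hy.choose else v
  have hR1 : ∀ v ∈ w.support, R v = v := fun v hv => by simp only [R, if_pos hv]
  have hR2 : ∀ v, (∃ s ∈ F.support, v ∈ s) →
      R v ∈ w.support ∧ UWT.Edge (S.cx c) v (R v) := by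
    intro v hv
    by_cases hw : v ∈ w.support
    · rw [hR1 v hw]
      exact ⟨hw, S.edge_self c v⟩
    · obtain ⟨s, hs, hvs⟩ := hv
      have hy := S.ray hS hF hw hs hvs
      have e : R v = hy.choose := by simp only [R, if_neg hw, dif_pos hy]
      rw [e]
      exact hy.choose_spec
  have hsum : (w.edges.map (ep fun v => l0 (R v))).sum ≠ 0 := by
    have he : w.edges.map (ep fun v => l0 (R v)) = w.edges.map (ep l0) := by
      refine List.map_congr_left fun e he => ?_
      induction e using Sym2.ind with
      | _ x y =>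
        have hx := w.fst_mem_support_of_mem_edges he
        have hy := w.snd_mem_support_of_mem_edges he
        simp only [ep, Sym2.lift_mk, hR1 x hx, hR1 y hy]
    rw [he]
    exact h
  obtain ⟨s, hs, hp⟩ := S.sperner hS hF (fun v => l0 (R v)) hsum
  choose p hps hpl using hp
  refine ⟨fun k => R (p k), fun k => ⟨(hR2 (p k) ⟨s, hs, hps k⟩).1, hpl k⟩, fun k l => ?_⟩
  have h1 := S.dist_of_edge (hR2 (p k) ⟨s, hs, hps k⟩).2
  have h2 := S.dist_of_edge (S.edge_of_sq c (hF.1 s hs) (hps k) (hps l))
  have h3 := S.dist_of_edge (hR2 (p l) ⟨s, hs, hps l⟩).2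
  have hc := S.g2_conn hS hG
  have t1 := hc.dist_triangle (u := R (p k)) (v := p k) (w := R (p l))
  have t2 := hc.dist_triangle (u := p k) (v := p l) (w := R (p l))
  rw [SimpleGraph.dist_comm (u := R (p k)) (v := p k)] at t1
  simp only
  omega

end Sheet

end UWK
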