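import Pool.Agent.UWK.Defs

/-!
# UWK package Univ: the universal sheet

CONSTRUCTION. Words are lists with the LAST letter at the head: `pos [] = b₀`,
`pos (i :: l) = nb (pos l) i`; a word is good if all its suffixes (including itself) have position
not in `H` (`Good [] := True`, `Good (i :: l) := pos (i :: l) ∉ H ∧ Good l`). Moves (an inductive
relation): `Mv (i :: i :: l) l`; `Mv ((i + 1) :: i :: l) (i :: (i + 1) :: l)` if
`SqG nb H (pos l) i`; `Mv (i :: l) (i :: l')` if `Mv l l'`. `A` = the quotient (`Quot`) of the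
good words by the relation `Mv` (restricted to good words). Moves preserve `pos` (`invol`,
`comm`), so `q` is defined on `A`. `st [l] i = [i :: l]` if `nb (pos l) i ∉ H`, and `st [l] i = [l]`
otherwise (well defined: `pos` is invariant, `Mv.cons`). `st_st`: `[i :: i :: l] = [l]` (first
move), trivial in the bad case. `comm`: second move.
`Gen`: `a₀ = []`; the class of a good word `l` is `l.reverse.foldl st a₀` (induction on `l`).
`UP`: for a word `l` (not necessarily good) let `cls l = l.foldr (fun i x => st x i) a₀` and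
`F [] = 1`, `F (i :: l) = F l * g (cls l) (cls (i :: l))`. For a good word `cls l` is the class of
`l`. If `Mv l l'` between good words then `F l = F l'`: first move:
`F l * g x (st x i) * g (st x i) x = F l`; second move: the hypothesis on squares (with
`x = cls l`); third move: `cls l = cls l'` and `F l = F l'`. So `F` descends to `f : A → G`
and `f (st a i) = f a * g a (st a i)` for good steps; for bad steps `st a i = a` and
`g a a = 1`.
-/

set_option autoImplicit false

open UW1 URW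

namespace UWK

section univ

variable {m : ℕ} {V : Type} (nb : V → Lab m → V) (H : Set V) (b₀ : V)

/-- the position of a word (the last letter is the head) -/
private def ps : List (Lab m) → V
  | [] => b₀
  | i :: l => nb (ps l) i

/-- good words -/
private def Gd : List (Lab m) → Prop
  | [] => True
  | i :: l => nb (ps nb b₀ l) i ∉ H ∧ Gd l

/-- moves -/
private inductive Mv : List (Lab m) → List (Lab m) → Prop
  | inv (i : Lab m) (l : List (Lab m)) : Mv (i :: i :: l) l
  | sq (i : Lab m) (l : List (Lab m)) : SqG nb H (ps nb b₀ l) i →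
      Mv ((i + 1) :: i :: l) (i :: (i + 1) :: l)
  | cons (i : Lab m) (l l' : List (Lab m)) : Mv l l' → Mv (i :: l) (i :: l')

variable {nb H b₀}

private theorem gd_mem (hb : b₀ ∉ H) {l : List (Lab m)} (h : Gd nb H b₀ l) :
    ps nb b₀ l ∉ H := by
  cases l with
  | nil => exact hb
  | cons i l => exact h.1

private theorem mv_ps (hI : Invol nb) (hc : ∀ v i, nb (nb v i) (i + 1) = nb (nb v (i + 1)) i)
    {l l' : List (Lab m)} (h : Mv nb H b₀ l l') : ps nb b₀ l = ps nb b₀ l' := by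
  induction h with
  | inv i l => exact hI _ _
  | sq i l _ => exact hc _ _
  | cons i l l' _ ih => exact congrArg (fun v => nb v i) ih

variable (nb H b₀)

/-- the relation on good words -/
private def Rl (a b : {l : List (Lab m) // Gd nb H b₀ l}) : Prop := Mv nb H b₀ a.1 b.1

open Classical in
/-- the step before passing to the quotient -/
private noncomputable def stp (i : Lab m) (a : {l : List (Lab m) // Gd nb H b₀ l}) :
    Quot (Rl nb H b₀) :=
  if h : nb (ps nb b₀ a.1) i ∉ H then Quot.mk _ ⟨i :: a.1, h, a.2⟩ else Quot.mk _ a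

variable {nb H b₀}

private theorem stp_good {i : Lab m} {a : {l : List (Lab m) // Gd nb H b₀ l}}
    (h : nb (ps nb b₀ a.1) i ∉ H) :
    stp nb H b₀ i a = Quot.mk (Rl nb H b₀) ⟨i :: a.1, h, a.2⟩ := by
  unfold stp
  rw [dif_pos h]

private theorem stp_bad {i : Lab m} {a : {l : List (Lab m) // Gd nb H b₀ l}}
    (h : nb (ps nb b₀ a.1) i ∈ H) : stp nb H b₀ i a = Quot.mk (Rl nb H b₀) a := by
  unfold stp
  rw [dif_neg (not_not.2 h)]

private theorem stp_mv (hI : Invol nb) (hc : ∀ v i, nb (nb v i) (i + 1) = nb (nb v (i + 1)) i)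
    (i : Lab m) (a b : {l : List (Lab m) // Gd nb H b₀ l}) (h : Rl nb H b₀ a b) :
    stp nb H b₀ i a = stp nb H b₀ i b := by
  have e : ps nb b₀ a.1 = ps nb b₀ b.1 := mv_ps hI hc h
  by_cases h1 : nb (ps nb b₀ a.1) i ∈ H
  · rw [stp_bad h1, stp_bad (e ▸ h1)]
    exact Quot.sound h
  · rw [stp_good h1, stp_good (e ▸ h1)]
    exact Quot.sound (Mv.cons i _ _ h)

variable (nb H b₀)

/-- the universal sheet -/
private noncomputable def ush (hb : b₀ ∉ H) (hI : Invol nb)
    (hc : ∀ v i, nb (nb v i) (i + 1) = nb (nb v (i + 1)) i) : Sheet nb H (Quot (Rl nb H b₀)) where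
  q := Quot.lift (fun a => ps nb b₀ a.1) (fun _ _ h => mv_ps hI hc h)
  st a i := Quot.lift (stp nb H b₀ i) (stp_mv hI hc i) a
  q_mem a := by
    induction a using Quot.ind
    rename_i a
    exact gd_mem hb a.2
  q_st a i := by
    induction a using Quot.ind
    rename_i a
    intro h
    change Quot.lift (fun a => ps nb b₀ a.1) _ (stp nb H b₀ i a) = nb (ps nb b₀ a.1) i
    rw [stp_good (i := i) (a := a) h]
    rfl
  st_bad a i := by
    induction a using Quot.ind
    rename_i a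
    intro h
    exact stp_bad h
  st_st a i := by
    induction a using Quot.ind
    rename_i a
    change Quot.lift (stp nb H b₀ i) (stp_mv hI hc i) (stp nb H b₀ i a) = _
    by_cases h : nb (ps nb b₀ a.1) i ∈ H
    · rw [stp_bad h]
      exact stp_bad h
    · rw [stp_good h]
      have h2 : nb (ps nb b₀ (i :: a.1)) i ∉ H := by
        have e : nb (ps nb b₀ (i :: a.1)) i = ps nb b₀ a.1 := hI _ _
        rw [e]
        exact gd_mem hb a.2
      change stp nb H b₀ i ⟨i :: a.1, h, a.2⟩ = _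
      rw [stp_good (a := ⟨i :: a.1, h, a.2⟩) h2]
      exact Quot.sound (Mv.inv i a.1)
  comm a i := by
    induction a using Quot.ind
    rename_i a
    intro hs
    have hs' : SqG nb H (ps nb b₀ a.1) i := hs
    obtain ⟨_, h1, h2, h3⟩ := hs
    change nb (ps nb b₀ a.1) i ∉ H at h1
    change nb (ps nb b₀ a.1) (i + 1) ∉ H at h2
    change nb (nb (ps nb b₀ a.1) i) (i + 1) ∉ H at h3
    change Quot.lift (stp nb H b₀ (i + 1)) (stp_mv hI hc (i + 1)) (stp nb H b₀ i a) =
      Quot.lift (stp nb H b₀ i) (stp_mv hI hc i) (stp nb H b₀ (i + 1) a)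
    rw [stp_good h1, stp_good h2]
    change stp nb H b₀ (i + 1) ⟨i :: a.1, h1, a.2⟩ = stp nb H b₀ i ⟨(i + 1) :: a.1, h2, a.2⟩
    rw [stp_good (a := ⟨i :: a.1, h1, a.2⟩) h3,
      stp_good (a := ⟨(i + 1) :: a.1, h2, a.2⟩) ((hc _ _) ▸ h3)]
    exact Quot.sound (Mv.sq i a.1 hs')

variable {nb H b₀}

private theorem ush_st (hb : b₀ ∉ H) (hI : Invol nb)
    (hc : ∀ v i, nb (nb v i) (i + 1) = nb (nb v (i + 1)) i) (i : Lab m) (l : List (Lab m))
    (h : Gd nb H b₀ (i :: l)) :
    (ush nb H b₀ hb hI hc).st (Quot.mk _ ⟨l, h.2⟩) i = Quot.mk _ ⟨i :: l, h⟩ :=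
  stp_good (a := ⟨l, h.2⟩) h.1

variable (nb H b₀)

/-- the class of a word -/
private noncomputable def cls (hb : b₀ ∉ H) (hI : Invol nb)
    (hc : ∀ v i, nb (nb v i) (i + 1) = nb (nb v (i + 1)) i) (l : List (Lab m)) :
    Quot (Rl nb H b₀) :=
  l.foldr (fun i x => (ush nb H b₀ hb hI hc).st x i) (Quot.mk _ ⟨[], trivial⟩)

/-- the integral of a cocycle -/
private noncomputable def Fw (hb : b₀ ∉ H) (hI : Invol nb)
    (hc : ∀ v i, nb (nb v i) (i + 1) = nb (nb v (i + 1)) i) {G : Type} [Group G]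
    (g : Quot (Rl nb H b₀) → Quot (Rl nb H b₀) → G) : List (Lab m) → G
  | [] => 1
  | i :: l => Fw hb hI hc g l * g (cls nb H b₀ hb hI hc l) (cls nb H b₀ hb hI hc (i :: l))

variable {nb H b₀}

private theorem cls_eq (hb : b₀ ∉ H) (hI : Invol nb)
    (hc : ∀ v i, nb (nb v i) (i + 1) = nb (nb v (i + 1)) i) (l : List (Lab m))
    (h : Gd nb H b₀ l) : cls nb H b₀ hb hI hc l = Quot.mk _ ⟨l, h⟩ := by
  induction l with
  | nil => rfl
  | cons i l ih =>
    rw [← ush_st hb hI hc i l h, ← ih h.2]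
    rfl

private theorem Fw_mv (hb : b₀ ∉ H) (hI : Invol nb)
    (hc : ∀ v i, nb (nb v i) (i + 1) = nb (nb v (i + 1)) i) {G : Type} [Group G]
    (g : Quot (Rl nb H b₀) → Quot (Rl nb H b₀) → G)
    (h2 : ∀ a i, g a ((ush nb H b₀ hb hI hc).st a i) * g ((ush nb H b₀ hb hI hc).st a i) a = 1)
    (h3 : ∀ a i, SqG nb H ((ush nb H b₀ hb hI hc).q a) i →
      g a ((ush nb H b₀ hb hI hc).st a i) * g ((ush nb H b₀ hb hI hc).st a i)
        ((ush nb H b₀ hb hI hc).st ((ush nb H b₀ hb hI hc).st a i) (i + 1)) =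
        g a ((ush nb H b₀ hb hI hc).st a (i + 1)) * g ((ush nb H b₀ hb hI hc).st a (i + 1))
          ((ush nb H b₀ hb hI hc).st ((ush nb H b₀ hb hI hc).st a i) (i + 1)))
    {l l' : List (Lab m)} (h : Mv nb H b₀ l l') (hl : Gd nb H b₀ l) (hl' : Gd nb H b₀ l') :
    Fw nb H b₀ hb hI hc g l = Fw nb H b₀ hb hI hc g l' := by
  induction h with
  | inv i l =>
    have e : cls nb H b₀ hb hI hc (i :: i :: l) = cls nb H b₀ hb hI hc l :=
      (ush nb H b₀ hb hI hc).st_st _ _
    change Fw nb H b₀ hb hI hc g l * g (cls nb H b₀ hb hI hc l) (cls nb H b₀ hb hI hc (i :: l)) *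
      g (cls nb H b₀ hb hI hc (i :: l)) (cls nb H b₀ hb hI hc (i :: i :: l)) = _
    rw [e, mul_assoc]
    have := h2 (cls nb H b₀ hb hI hc l) i
    change g (cls nb H b₀ hb hI hc l) (cls nb H b₀ hb hI hc (i :: l)) *
      g (cls nb H b₀ hb hI hc (i :: l)) (cls nb H b₀ hb hI hc l) = 1 at this
    rw [this, mul_one]
  | sq i l hs =>
    have hgl : Gd nb H b₀ l := hl.2.2
    have hq : (ush nb H b₀ hb hI hc).q (cls nb H b₀ hb hI hc l) = ps nb b₀ l := by
      rw [cls_eq hb hI hc l hgl]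
      rfl
    have e : cls nb H b₀ hb hI hc (i :: (i + 1) :: l) =
        cls nb H b₀ hb hI hc ((i + 1) :: i :: l) :=
      ((ush nb H b₀ hb hI hc).comm (cls nb H b₀ hb hI hc l) i (hq.symm ▸ hs)).symm
    change Fw nb H b₀ hb hI hc g l * g (cls nb H b₀ hb hI hc l) (cls nb H b₀ hb hI hc (i :: l)) *
      g (cls nb H b₀ hb hI hc (i :: l)) (cls nb H b₀ hb hI hc ((i + 1) :: i :: l)) =
      Fw nb H b₀ hb hI hc g l * g (cls nb H b₀ hb hI hc l)
        (cls nb H b₀ hb hI hc ((i + 1) :: l)) *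
      g (cls nb H b₀ hb hI hc ((i + 1) :: l)) (cls nb H b₀ hb hI hc (i :: (i + 1) :: l))
    rw [e, mul_assoc, mul_assoc]
    congr 1
    exact h3 (cls nb H b₀ hb hI hc l) i (hq.symm ▸ hs)
  | cons i l l' hm ih =>
    have e : cls nb H b₀ hb hI hc l = cls nb H b₀ hb hI hc l' := by
      rw [cls_eq hb hI hc l hl.2, cls_eq hb hI hc l' hl'.2]
      exact Quot.sound hm
    have e' : cls nb H b₀ hb hI hc (i :: l) = cls nb H b₀ hb hI hc (i :: l') := by
      change (ush nb H b₀ hb hI hc).st (cls nb H b₀ hb hI hc l) i =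
        (ush nb H b₀ hb hI hc).st (cls nb H b₀ hb hI hc l') i
      rw [e]
    change Fw nb H b₀ hb hI hc g l * g (cls nb H b₀ hb hI hc l) (cls nb H b₀ hb hI hc (i :: l)) =
      Fw nb H b₀ hb hI hc g l' * g (cls nb H b₀ hb hI hc l') (cls nb H b₀ hb hI hc (i :: l'))
    rw [e, e', ih hl.2 hl'.2]

end univ

theorem exists_sheet {m : ℕ} {V : Type} (nb : V → Lab m → V) (H : Set V) (b₀ : V) (hb : b₀ ∉ H)
    (hI : Invol nb) (hc : ∀ v i, nb (nb v i) (i + 1) = nb (nb v (i + 1)) i) :
    ∃ (A : Type) (S : Sheet nb H A), S.Gen ∧ S.UP := by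
  refine ⟨Quot (Rl nb H b₀), ush nb H b₀ hb hI hc, ⟨Quot.mk _ ⟨[], trivial⟩, ?_⟩, ?_⟩
  · intro a
    induction a using Quot.ind
    rename_i a
    refine ⟨a.1.reverse, ?_⟩
    rw [List.foldl_reverse]
    exact (cls_eq hb hI hc a.1 a.2).symm
  · intro G _ g h1 h2 h3
    refine ⟨Quot.lift (fun a => Fw nb H b₀ hb hI hc g a.1)
      (fun a b h => Fw_mv hb hI hc g h2 h3 h a.2 b.2), ?_⟩
    intro a i
    induction a using Quot.ind
    rename_i a
    by_cases h : nb (ps nb b₀ a.1) i ∈ H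
    · have e : (ush nb H b₀ hb hI hc).st (Quot.mk _ a) i = Quot.mk _ a := stp_bad h
      rw [e, h1, inv_mul_cancel]
    · have e : (ush nb H b₀ hb hI hc).st (Quot.mk _ a) i = Quot.mk _ ⟨i :: a.1, h, a.2⟩ :=
        stp_good h
      rw [e]
      change _ = (Fw nb H b₀ hb hI hc g a.1)⁻¹ * (Fw nb H b₀ hb hI hc g a.1 *
        g (cls nb H b₀ hb hI hc a.1) (cls nb H b₀ hb hI hc (i :: a.1)))
      rw [inv_mul_cancel_left, cls_eq hb hI hc a.1 a.2,
        cls_eq hb hI hc (i :: a.1) ⟨h, a.2⟩]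

end UWK
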